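import Mathlib

open scoped BigOperators

namespace Pool.Agent.H.MP_5f83d6_pr

variable {n : ℕ}

lemma card_fixing (p : Fin n → Prop) [DecidablePred p] :
    Fintype.card {π : Equiv.Perm (Fin n) // ∀ a, ¬ p a → π a = a}
      = (Fintype.card {a // p a}).factorial := by
  rw [← Fintype.card_perm]
  exact (Fintype.card_congr (Equiv.Perm.subtypeEquivSubtypePerm p)).symm

/-- The number of quadruples of permutations which agree in pairs on `S` and crosswise off `S`. -/
lemma card_quad (S : Finset (Fin n)) :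
    (Finset.univ.filter (fun x : (Equiv.Perm (Fin n) × Equiv.Perm (Fin n)) ×
      (Equiv.Perm (Fin n) × Equiv.Perm (Fin n)) =>
      (∀ i ∈ S, x.1.1 i = x.2.1 i ∧ x.1.2 i = x.2.2 i) ∧
      (∀ i ∉ S, x.1.1 i = x.2.2 i ∧ x.1.2 i = x.2.1 i))).card
      ≤ n.factorial * (S.card.factorial * (n - S.card).factorial) := by
  classical
  have e1 : Fintype.card {π : Equiv.Perm (Fin n) // ∀ a, ¬ (a ∈ S) → π a = a}
      = S.card.factorial := by
    rw [card_fixing (fun a => a ∈ S)]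
    simp
  have e2 : Fintype.card {π : Equiv.Perm (Fin n) // ∀ a, ¬ (a ∉ S) → π a = a}
      = (n - S.card).factorial := by
    rw [card_fixing (fun a => a ∉ S)]
    congr 1
    rw [Fintype.card_subtype_compl]
    simp
  rw [← e1, ← e2]
  have e3 : n.factorial = Fintype.card (Equiv.Perm (Fin n)) := by simp [Fintype.card_perm]
  rw [e3, ← Fintype.card_prod, ← Fintype.card_prod, ← Fintype.card_coe]
  refine Fintype.card_le_of_injective
    (β := Equiv.Perm (Fin n) × ({π : Equiv.Perm (Fin n) // ∀ a, ¬ (a ∈ S) → π a = a} ×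
      {π : Equiv.Perm (Fin n) // ∀ a, ¬ (a ∉ S) → π a = a}))
    (fun x => (x.1.1.1, (⟨x.1.2.1⁻¹ * x.1.1.2, ?_⟩, ⟨x.1.1.1⁻¹ * x.1.2.1, ?_⟩))) ?_
  · intro a ha
    have h := (Finset.mem_filter.1 x.2).2.2 a ha
    rw [Equiv.Perm.mul_apply, h.2]
    simp
  · intro a ha
    push Not at ha
    have h := (Finset.mem_filter.1 x.2).2.1 a ha
    rw [Equiv.Perm.mul_apply, ← h.1]
    simp
  · rintro ⟨⟨⟨s, t⟩, ⟨s', t'⟩⟩, hx⟩ ⟨⟨⟨s1, t1⟩, ⟨s1', t1'⟩⟩, hy⟩ hxy
    simp only [Prod.mk.injEq, Subtype.mk.injEq] at hxy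
    obtain ⟨h1, h2, h3⟩ := hxy
    subst h1
    have h4 : s' = s1' := mul_left_cancel h3
    subst h4
    have h5 : t = t1 := mul_left_cancel h2
    subst h5
    have hx' := (Finset.mem_filter.1 hx).2
    have hy' := (Finset.mem_filter.1 hy).2
    have h6 : t' = t1' := by
      ext i
      by_cases hi : i ∈ S
      · have a1 := (hx'.1 i hi).2
        have a2 := (hy'.1 i hi).2
        simp only at a1 a2
        rw [← a1, ← a2]
      · have a1 := (hx'.2 i hi).1
        have a2 := (hy'.2 i hi).1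
        simp only at a1 a2
        rw [← a1, ← a2]
    subst h6
    rfl

/-- The total count. -/
lemma sum_quad :
    ∑ x : (Equiv.Perm (Fin n) × Equiv.Perm (Fin n)) ×
      (Equiv.Perm (Fin n) × Equiv.Perm (Fin n)),
      ∏ i, (((if x.1.1 i = x.2.1 i ∧ x.1.2 i = x.2.2 i then 1 else 0) : ℝ) +
        (if x.1.1 i = x.2.2 i ∧ x.1.2 i = x.2.1 i then 1 else 0))
      ≤ (n + 1) * (n.factorial : ℝ) ^ 2 := by
  classical
  have h1 : ∀ x : (Equiv.Perm (Fin n) × Equiv.Perm (Fin n)) ×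
      (Equiv.Perm (Fin n) × Equiv.Perm (Fin n)),
      ∏ i, (((if x.1.1 i = x.2.1 i ∧ x.1.2 i = x.2.2 i then 1 else 0) : ℝ) +
        (if x.1.1 i = x.2.2 i ∧ x.1.2 i = x.2.1 i then 1 else 0))
      = ∑ S : Finset (Fin n), if ((∀ i ∈ S, x.1.1 i = x.2.1 i ∧ x.1.2 i = x.2.2 i) ∧
      (∀ i ∉ S, x.1.1 i = x.2.2 i ∧ x.1.2 i = x.2.1 i)) then (1 : ℝ) else 0 := by
    intro x
    rw [Finset.prod_add, Finset.powerset_univ]
    apply Finset.sum_congr rfl
    intro S _
    rw [Finset.prod_boole, Finset.prod_boole]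
    simp only [Finset.mem_sdiff, Finset.mem_univ, true_and]
    by_cases hA : ∀ i ∈ S, x.1.1 i = x.2.1 i ∧ x.1.2 i = x.2.2 i
    · by_cases hB : ∀ i ∉ S, x.1.1 i = x.2.2 i ∧ x.1.2 i = x.2.1 i
      · rw [if_pos hA, if_pos hB, if_pos ⟨hA, hB⟩, one_mul]
      · rw [if_pos hA, if_neg hB, if_neg (fun h => hB h.2), one_mul]
    · rw [if_neg hA, zero_mul, if_neg (fun h => hA h.1)]
  simp_rw [h1]
  rw [Finset.sum_comm]
  have h2 : ∀ S : Finset (Fin n), ∑ x : (Equiv.Perm (Fin n) × Equiv.Perm (Fin n)) ×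
      (Equiv.Perm (Fin n) × Equiv.Perm (Fin n)),
      (if ((∀ i ∈ S, x.1.1 i = x.2.1 i ∧ x.1.2 i = x.2.2 i) ∧
      (∀ i ∉ S, x.1.1 i = x.2.2 i ∧ x.1.2 i = x.2.1 i)) then (1 : ℝ) else 0)
      ≤ n.factorial * (S.card.factorial * (n - S.card).factorial) := by
    intro S
    rw [Finset.sum_boole]
    exact_mod_cast card_quad S
  refine (Finset.sum_le_sum fun S _ => h2 S).trans (le_of_eq ?_)
  have h3 := Finset.sum_powerset_apply_card
    (fun k => (n.factorial : ℝ) * (k.factorial * (n - k).factorial))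
    (x := (Finset.univ : Finset (Fin n)))
  rw [Finset.powerset_univ] at h3
  rw [h3, Finset.card_univ, Fintype.card_fin]
  have h4 : ∀ k ∈ Finset.range (n + 1), n.choose k •
      ((n.factorial : ℝ) * (k.factorial * (n - k).factorial)) = (n.factorial : ℝ) ^ 2 := by
    intro k hk
    have hk' : k ≤ n := Nat.lt_succ_iff.1 (Finset.mem_range.1 hk)
    have := Nat.choose_mul_factorial_mul_factorial hk'
    rw [nsmul_eq_mul]
    have h5 : ((n.choose k : ℝ)) * k.factorial * (n - k).factorial = n.factorial := by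
      exact_mod_cast this
    calc (n.choose k : ℝ) * ((n.factorial : ℝ) * (k.factorial * (n - k).factorial))
        = n.factorial * ((n.choose k : ℝ) * k.factorial * (n - k).factorial) := by ring
      _ = (n.factorial : ℝ) ^ 2 := by rw [h5]; ring
  rw [Finset.sum_congr rfl h4, Finset.sum_const, Finset.card_range, nsmul_eq_mul]
  push_cast
  ring

end Pool.Agent.H.MP_5f83d6_pr
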