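import Mathlib

open MeasureTheory ProbabilityTheory Filter
open scoped ENNReal NNReal ComplexConjugate RealInnerProductSpace

namespace Pool.Agent.H.MP_5f83d6_pr

/-- The standard complex Gaussian distribution: the law of `a + b i` with `a, b` independent
real Gaussians of mean `0` and variance `1/2`. -/
noncomputable def stdComplexGaussian : Measure ℂ :=
  ((gaussianReal 0 (1 / 2)).prod (gaussianReal 0 (1 / 2))).map
    (fun p : ℝ × ℝ => (p.1 : ℂ) + (p.2 : ℂ) * Complex.I)

instance : IsProbabilityMeasure stdComplexGaussian := by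
  unfold stdComplexGaussian
  exact Measure.isProbabilityMeasure_map (by fun_prop)

lemma charFun_std (t : ℂ) : charFun stdComplexGaussian t = Complex.exp (-(‖t‖ ^ 2 : ℝ) / 4) := by
  rw [charFun_apply, stdComplexGaussian, integral_map (by fun_prop) (by fun_prop)]
  have h1 : ∀ p : ℝ × ℝ, Complex.exp ((inner ℝ ((p.1 : ℂ) + (p.2 : ℂ) * Complex.I) t : ℝ) * Complex.I)
      = Complex.exp (t.re * p.1 * Complex.I) * Complex.exp (t.im * p.2 * Complex.I) := by
    intro p
    rw [← Complex.exp_add]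
    congr 1
    have : (inner ℝ ((p.1 : ℂ) + (p.2 : ℂ) * Complex.I) t : ℝ) = t.re * p.1 + t.im * p.2 := by
      rw [Complex.inner]
      simp
    rw [this]
    push_cast
    ring
  simp_rw [h1]
  rw [integral_prod_mul (fun x : ℝ => Complex.exp (t.re * x * Complex.I))
    (fun x : ℝ => Complex.exp (t.im * x * Complex.I)), ← charFun_apply_real, ← charFun_apply_real,
    charFun_gaussianReal, charFun_gaussianReal, ← Complex.exp_add]
  congr 1
  rw [Complex.sq_norm, Complex.normSq_apply]
  push_cast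
  ring

/-- A linear form in independent standard complex Gaussians. -/
lemma map_linear {ι : Type*} [Fintype ι] (v : ι → ℂ) :
    (Measure.pi (fun _ : ι => stdComplexGaussian)).map (fun x => ∑ j, x j * v j)
      = stdComplexGaussian.map (fun w => ((√(∑ j, ‖v j‖ ^ 2) : ℝ) : ℂ) * w) := by
  have : IsProbabilityMeasure ((Measure.pi (fun _ : ι => stdComplexGaussian)).map
    (fun x => ∑ j, x j * v j)) :=
    Measure.isProbabilityMeasure_map (Measurable.aemeasurable (by fun_prop))
  have : IsProbabilityMeasure (stdComplexGaussian.map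
    (fun w => ((√(∑ j, ‖v j‖ ^ 2) : ℝ) : ℂ) * w)) := Measure.isProbabilityMeasure_map (by fun_prop)
  apply Measure.ext_of_charFun
  funext t
  rw [charFun_apply, charFun_apply, integral_map (Measurable.aemeasurable (by fun_prop))
    (Measurable.aestronglyMeasurable (by fun_prop)),
    integral_map (by fun_prop) (by fun_prop)]
  have h1 : ∀ x : ι → ℂ, Complex.exp ((inner ℝ (∑ j, x j * v j) t : ℝ) * Complex.I)
      = ∏ j, Complex.exp ((inner ℝ (x j) (conj (v j) * t) : ℝ) * Complex.I) := by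
    intro x
    rw [← Complex.exp_sum]
    congr 1
    rw [sum_inner, Complex.ofReal_sum, Finset.sum_mul]
    apply Finset.sum_congr rfl
    intro j _
    congr 2
    rw [Complex.inner, Complex.inner]
    congr 1
    simp
    ring
  simp_rw [h1]
  rw [integral_fintype_prod_eq_prod
    (f := fun j (x : ℂ) => Complex.exp ((inner ℝ x (conj (v j) * t) : ℝ) * Complex.I))]
  have h2 : ∀ j, ∫ x, Complex.exp ((inner ℝ x (conj (v j) * t) : ℝ) * Complex.I) ∂stdComplexGaussian
      = Complex.exp (-(‖conj (v j) * t‖ ^ 2 : ℝ) / 4) := by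
    intro j
    rw [← charFun_apply, charFun_std]
  simp_rw [h2]
  have h3 : ∀ w : ℂ, (inner ℝ (((√(∑ j, ‖v j‖ ^ 2) : ℝ) : ℂ) * w) t : ℝ)
      = (inner ℝ w (((√(∑ j, ‖v j‖ ^ 2) : ℝ) : ℂ) * t) : ℝ) := by
    intro w
    rw [Complex.inner, Complex.inner]
    congr 1
    simp
    ring
  simp_rw [h3]
  rw [← charFun_apply, charFun_std, ← Complex.exp_sum]
  congr 1
  have h4 : 0 ≤ ∑ j, ‖v j‖ ^ 2 := Finset.sum_nonneg fun j _ => by positivity
  rw [norm_mul, mul_pow, Complex.norm_real, Real.norm_eq_abs, sq_abs, Real.sq_sqrt h4]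
  simp only [norm_mul, mul_pow, RCLike.norm_conj]
  push_cast
  rw [Finset.sum_mul, ← Finset.sum_neg_distrib, Finset.sum_div]

/-- Integration against the standard complex Gaussian. -/
lemma lintegral_std (F : ℂ → ℝ≥0∞) (hF : Measurable F) :
    ∫⁻ w, F w ∂stdComplexGaussian
      = ∫⁻ w : ℂ, ENNReal.ofReal (Real.exp (-‖w‖ ^ 2) / Real.pi) * F w := by
  have hpi : 0 < Real.pi := Real.pi_pos
  rw [stdComplexGaussian, lintegral_map hF (by fun_prop),
    gaussianReal_of_var_ne_zero 0 (by norm_num : (1 / 2 : ℝ≥0) ≠ 0),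
    prod_withDensity (by fun_prop) (by fun_prop), lintegral_withDensity_eq_lintegral_mul _
    (by fun_prop) (by fun_prop)]
  rw [← Measure.volume_eq_prod]
  rw [← (Complex.volume_preserving_equiv_real_prod).lintegral_comp_emb
    (Complex.measurableEquivRealProd.measurableEmbedding)]
  apply lintegral_congr
  intro w
  simp only [Pi.mul_apply, Complex.measurableEquivRealProd_apply]
  rw [Complex.re_add_im]
  congr 1
  rw [gaussianPDF, gaussianPDF, ← ENNReal.ofReal_mul (gaussianPDFReal_nonneg _ _ _)]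
  congr 1
  rw [gaussianPDFReal, gaussianPDFReal]
  have e1 : (2 * Real.pi * ((1/2 : ℝ≥0) : ℝ)) = Real.pi := by
    push_cast; ring
  have e2 : (2 * ((1/2 : ℝ≥0) : ℝ)) = 1 := by push_cast; norm_num
  rw [e1, e2]
  have e3 : -‖w‖ ^ 2 = -(w.re - 0) ^ 2 / 1 + -(w.im - 0) ^ 2 / 1 := by
    rw [Complex.sq_norm, Complex.normSq_apply]; ring
  rw [e3, Real.exp_add]
  have e4 : √Real.pi * √Real.pi = Real.pi := Real.mul_self_sqrt hpi.le
  have e5 : 0 < √Real.pi := by positivity
  field_simp
  rw [sq, e4]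

/-- Negative moments of the standard complex Gaussian. -/
lemma neg_moment_std (b : ℝ) (hb1 : b < 1) :
    ∫⁻ w, (ENNReal.ofReal (‖w‖ ^ 2)) ^ (-b) ∂stdComplexGaussian
      = ENNReal.ofReal (Real.Gamma (1 - b)) := by
  have hpi : 0 < Real.pi := Real.pi_pos
  rw [lintegral_std _ (by fun_prop)]
  have h := Complex.integral_rpow_mul_exp_neg_rpow (p := 2) (q := -2 * b) (by norm_num)
    (by linarith)
  have hG : 0 < Real.Gamma (1 - b) := Real.Gamma_pos_of_pos (by linarith)
  have e0 : (-2 * b + 2) / 2 = 1 - b := by ring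
  have e1 : 2 * Real.pi / 2 = Real.pi := by ring
  rw [e0, e1] at h
  have hint : Integrable (fun x : ℂ => ‖x‖ ^ (-2 * b) * Real.exp (-‖x‖ ^ (2:ℝ))) := by
    by_contra hc
    rw [integral_undef hc] at h
    have : 0 < Real.pi * Real.Gamma (1 - b) := by positivity
    linarith
  have hae : ∀ᵐ w : ℂ, ENNReal.ofReal (Real.exp (-‖w‖ ^ 2) / Real.pi) *
      (ENNReal.ofReal (‖w‖ ^ 2)) ^ (-b)
      = ENNReal.ofReal (‖w‖ ^ (-2 * b) * Real.exp (-‖w‖ ^ (2:ℝ)) / Real.pi) := by
    have hne : ∀ᵐ w : ℂ, w ≠ 0 := by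
      rw [ae_iff]
      simp
    filter_upwards [hne] with w hw
    have hw' : 0 < ‖w‖ := norm_pos_iff.2 hw
    rw [ENNReal.ofReal_rpow_of_pos (by positivity), ← ENNReal.ofReal_mul (by positivity)]
    congr 1
    have e2 : (‖w‖ ^ 2) ^ (-b) = ‖w‖ ^ (-2 * b) := by
      rw [← Real.rpow_natCast, ← Real.rpow_mul hw'.le]
      congr 1
      push_cast
      ring
    rw [e2, Real.rpow_two]
    ring
  rw [lintegral_congr_ae hae, ← ofReal_integral_eq_lintegral_ofReal (hint.div_const _)
    (Eventually.of_forall fun w => by positivity), integral_div, h]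
  congr 1
  field_simp

end Pool.Agent.H.MP_5f83d6_pr
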