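import Mathlib
import Pool.Agent.H.MP_5f83d6_pr.Gauss

open MeasureTheory ProbabilityTheory Filter
open scoped ENNReal NNReal

namespace Pool.Agent.H.MP_5f83d6_pr

/-- Tangent line inequality for `t ↦ t ^ (-b)`. -/
lemma tangent_neg_rpow (b t : ℝ) (hb : 0 < b) (ht : 0 < t) : 1 - b * (t - 1) ≤ t ^ (-b) := by
  have h1 : t ^ (-b) = Real.exp (-b * Real.log t) := by
    rw [Real.rpow_def_of_pos ht]; ring_nf
  rw [h1]
  have h2 := Real.add_one_le_exp (-b * Real.log t)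
  have h3 := Real.log_le_sub_one_of_pos ht
  nlinarith

/-- Jensen inequality for `t ↦ t ^ (-b)` with finitely many positive weights. -/
lemma jensen_neg {ι : Type*} (s : Finset ι) (w y : ι → ℝ) (b : ℝ) (hb : 0 < b)
    (hw : ∀ i ∈ s, 0 < w i) (hsum : ∑ i ∈ s, w i = 1) (hy : ∀ i ∈ s, 0 ≤ y i) :
    (ENNReal.ofReal (∑ i ∈ s, w i * y i)) ^ (-b)
      ≤ ∑ i ∈ s, ENNReal.ofReal (w i) * (ENNReal.ofReal (y i)) ^ (-b) := by
  by_cases h0 : ∃ i ∈ s, y i = 0
  · obtain ⟨i, hi, hi0⟩ := h0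
    have h1 : ENNReal.ofReal (w i) * (ENNReal.ofReal (y i)) ^ (-b) = ∞ := by
      rw [hi0, ENNReal.ofReal_zero, ENNReal.zero_rpow_of_neg (by linarith)]
      rw [ENNReal.mul_top]
      exact (ENNReal.ofReal_pos.2 (hw i hi)).ne'
    have h2 : ∑ i ∈ s, ENNReal.ofReal (w i) * (ENNReal.ofReal (y i)) ^ (-b) = ∞ := by
      rw [ENNReal.sum_eq_top]
      exact ⟨i, hi, h1⟩
    rw [h2]
    exact le_top
  · push Not at h0
    have hy' : ∀ i ∈ s, 0 < y i := fun i hi => lt_of_le_of_ne (hy i hi) (Ne.symm (h0 i hi))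
    have hne : s.Nonempty := by
      rw [Finset.nonempty_iff_ne_empty]
      rintro rfl
      simp at hsum
    set m := ∑ i ∈ s, w i * y i with hm
    have hmpos : 0 < m := Finset.sum_pos (fun i hi => mul_pos (hw i hi) (hy' i hi)) hne
    have h1 : ∀ i ∈ s, ENNReal.ofReal (w i) * (ENNReal.ofReal (y i)) ^ (-b)
        = ENNReal.ofReal (w i * (y i) ^ (-b)) := by
      intro i hi
      rw [ENNReal.ofReal_rpow_of_pos (hy' i hi), ← ENNReal.ofReal_mul (hw i hi).le]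
    rw [Finset.sum_congr rfl h1, ← ENNReal.ofReal_sum_of_nonneg
      (fun i hi => mul_nonneg (hw i hi).le (Real.rpow_nonneg (hy i hi) _)),
      ENNReal.ofReal_rpow_of_pos hmpos]
    apply ENNReal.ofReal_le_ofReal
    have h2 : ∀ i ∈ s, w i * (m ^ (-b) * (1 - b * (y i / m - 1))) ≤ w i * (y i) ^ (-b) := by
      intro i hi
      apply mul_le_mul_of_nonneg_left _ (hw i hi).le
      have := tangent_neg_rpow b (y i / m) hb (div_pos (hy' i hi) hmpos)
      rw [Real.div_rpow (hy i hi) hmpos.le] at this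
      have hmb : 0 < m ^ (-b) := Real.rpow_pos_of_pos hmpos _
      calc m ^ (-b) * (1 - b * (y i / m - 1)) ≤ m ^ (-b) * (y i ^ (-b) / m ^ (-b)) := by gcongr
        _ = y i ^ (-b) := by field_simp
    refine le_trans (le_of_eq ?_) (Finset.sum_le_sum h2)
    have h3 : ∀ i ∈ s, w i * (m ^ (-b) * (1 - b * (y i / m - 1)))
        = m ^ (-b) * (1 + b) * w i - m ^ (-b) * b / m * (w i * y i) := by
      intro i _
      field_simp
      ring
    rw [Finset.sum_congr rfl h3, Finset.sum_sub_distrib, ← Finset.mul_sum, ← Finset.mul_sum, hsum,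
      ← hm]
    field_simp
    ring

lemma lin_neg_moment {ι : Type*} [Fintype ι] (v : ι → ℂ) (b : ℝ) (hb1 : b < 1)
    (hv : 0 < ∑ j, ‖v j‖ ^ 2) :
    ∫⁻ x : ι → ℂ, (ENNReal.ofReal (‖∑ j, x j * v j‖ ^ 2 / ∑ j, ‖v j‖ ^ 2)) ^ (-b)
      ∂(Measure.pi (fun _ : ι => stdComplexGaussian)) = ENNReal.ofReal (Real.Gamma (1 - b)) := by
  set r := ∑ j, ‖v j‖ ^ 2 with hr
  have h1 : ∫⁻ x : ι → ℂ, (ENNReal.ofReal (‖∑ j, x j * v j‖ ^ 2 / r)) ^ (-b)
      ∂(Measure.pi (fun _ : ι => stdComplexGaussian))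
      = ∫⁻ w, (ENNReal.ofReal (‖w‖ ^ 2 / r)) ^ (-b)
        ∂((Measure.pi (fun _ : ι => stdComplexGaussian)).map (fun x => ∑ j, x j * v j)) := by
    rw [lintegral_map (by fun_prop) (by fun_prop)]
  rw [h1, map_linear, lintegral_map (by fun_prop) (by fun_prop), ← neg_moment_std b hb1]
  apply lintegral_congr
  intro w
  congr 2
  rw [norm_mul, mul_pow, Complex.norm_real, Real.norm_eq_abs, sq_abs, ← hr, Real.sq_sqrt hv.le]
  field_simp

/-- Negative moment of a sum of squares of linear forms. -/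
lemma quad_neg_moment {A ι : Type*} [Fintype A] [Fintype ι] (v : A → ι → ℂ) (b : ℝ) (hb : 0 < b)
    (hb1 : b < 1) :
    ∫⁻ x : ι → ℂ, (ENNReal.ofReal (∑ a, ‖∑ j, x j * v a j‖ ^ 2)) ^ (-b)
      ∂(Measure.pi (fun _ : ι => stdComplexGaussian))
      ≤ ENNReal.ofReal (Real.Gamma (1 - b)) *
        (ENNReal.ofReal (∑ a, ∑ j, ‖v a j‖ ^ 2)) ^ (-b) := by
  classical
  have hG : 0 < Real.Gamma (1 - b) := Real.Gamma_pos_of_pos (by linarith)
  set T := ∑ a, ∑ j, ‖v a j‖ ^ 2 with hT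
  have hT0 : 0 ≤ T := Finset.sum_nonneg fun a _ => Finset.sum_nonneg fun j _ => by positivity
  rcases hT0.eq_or_lt with h0 | hTpos
  · rw [← h0, ENNReal.ofReal_zero, ENNReal.zero_rpow_of_neg (by linarith), ENNReal.mul_top
      (ENNReal.ofReal_pos.2 hG).ne']
    exact le_top
  set t : A → ℝ := fun a => ∑ j, ‖v a j‖ ^ 2 with ht
  have ht0 : ∀ a, 0 ≤ t a := fun a => Finset.sum_nonneg fun j _ => by positivity
  set s : Finset A := Finset.univ.filter (fun a => 0 < t a) with hs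
  have hsum_t : ∑ a ∈ s, t a = T := by
    rw [hs, hT, Finset.sum_filter]
    apply Finset.sum_congr rfl
    intro a _
    split_ifs with h
    · rfl
    · have : t a = 0 := le_antisymm (not_lt.1 h) (ht0 a)
      rw [← this]
  have hpt : ∀ x : ι → ℂ, (ENNReal.ofReal (∑ a, ‖∑ j, x j * v a j‖ ^ 2)) ^ (-b)
      ≤ (ENNReal.ofReal T) ^ (-b) * ∑ a ∈ s, ENNReal.ofReal (t a / T) *
        (ENNReal.ofReal (‖∑ j, x j * v a j‖ ^ 2 / t a)) ^ (-b) := by
    intro x
    have hJ := jensen_neg s (fun a => t a / T) (fun a => ‖∑ j, x j * v a j‖ ^ 2 / t a) b hb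
      (fun a ha => div_pos (by simpa [hs] using ha) hTpos)
      (by rw [← Finset.sum_div, hsum_t, div_self hTpos.ne'])
      (fun a ha => by
        have := ht0 a
        positivity)
    have e1 : ∑ a ∈ s, t a / T * (‖∑ j, x j * v a j‖ ^ 2 / t a)
        = (∑ a ∈ s, ‖∑ j, x j * v a j‖ ^ 2) / T := by
      rw [Finset.sum_div]
      apply Finset.sum_congr rfl
      intro a ha
      have : 0 < t a := by simpa [hs] using ha
      field_simp
    rw [e1] at hJ
    have e2 : ∑ a ∈ s, ‖∑ j, x j * v a j‖ ^ 2 ≤ ∑ a, ‖∑ j, x j * v a j‖ ^ 2 :=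
      Finset.sum_le_sum_of_subset_of_nonneg (Finset.subset_univ _) fun a _ _ => by positivity
    have e3 : ENNReal.ofReal T * ENNReal.ofReal ((∑ a ∈ s, ‖∑ j, x j * v a j‖ ^ 2) / T)
        ≤ ENNReal.ofReal (∑ a, ‖∑ j, x j * v a j‖ ^ 2) := by
      rw [← ENNReal.ofReal_mul hTpos.le]
      apply ENNReal.ofReal_le_ofReal
      rw [mul_div_cancel₀ _ hTpos.ne']
      exact e2
    calc (ENNReal.ofReal (∑ a, ‖∑ j, x j * v a j‖ ^ 2)) ^ (-b)
        ≤ (ENNReal.ofReal T * ENNReal.ofReal ((∑ a ∈ s, ‖∑ j, x j * v a j‖ ^ 2) / T)) ^ (-b) := by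
          rw [ENNReal.rpow_neg, ENNReal.rpow_neg]
          apply ENNReal.inv_le_inv.2
          exact ENNReal.rpow_le_rpow e3 hb.le
      _ = (ENNReal.ofReal T) ^ (-b) *
          (ENNReal.ofReal ((∑ a ∈ s, ‖∑ j, x j * v a j‖ ^ 2) / T)) ^ (-b) := by
          rw [ENNReal.mul_rpow_of_ne_top ENNReal.ofReal_ne_top ENNReal.ofReal_ne_top]
      _ ≤ _ := by gcongr
  calc _ ≤ ∫⁻ x : ι → ℂ, (ENNReal.ofReal T) ^ (-b) * ∑ a ∈ s, ENNReal.ofReal (t a / T) *
        (ENNReal.ofReal (‖∑ j, x j * v a j‖ ^ 2 / t a)) ^ (-b)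
        ∂(Measure.pi (fun _ : ι => stdComplexGaussian)) := lintegral_mono hpt
    _ = (ENNReal.ofReal T) ^ (-b) * ∑ a ∈ s, ENNReal.ofReal (t a / T) *
        ENNReal.ofReal (Real.Gamma (1 - b)) := by
        rw [lintegral_const_mul _ (by fun_prop), lintegral_finsetSum _ (fun a _ => by fun_prop)]
        congr 1
        apply Finset.sum_congr rfl
        intro a ha
        have hta : 0 < t a := by simpa [hs] using ha
        rw [lintegral_const_mul _ (by fun_prop), lin_neg_moment (v a) b hb1 hta]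
    _ = ENNReal.ofReal (Real.Gamma (1 - b)) * (ENNReal.ofReal T) ^ (-b) := by
        rw [← Finset.sum_mul, ← ENNReal.ofReal_sum_of_nonneg
          (fun a _ => div_nonneg (ht0 a) hTpos.le), ← Finset.sum_div, hsum_t,
          div_self hTpos.ne', ENNReal.ofReal_one, one_mul, mul_comm]

end Pool.Agent.H.MP_5f83d6_pr
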