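import Mathlib
import Pool.Agent.H.MP_5f83d6_pr.Gauss

open MeasureTheory ProbabilityTheory Filter
open scoped ENNReal NNReal ComplexConjugate

namespace Pool.Agent.H.MP_5f83d6_pr

lemma lintegral_norm_pow (k : ℕ) :
    ∫⁻ w, ENNReal.ofReal (‖w‖ ^ (2 * k)) ∂stdComplexGaussian = ENNReal.ofReal (k.factorial : ℝ) := by
  have h := neg_moment_std (-(k : ℝ)) (by have := Nat.cast_nonneg (α := ℝ) k; linarith)
  have e : Real.Gamma (1 - -(k : ℝ)) = (k.factorial : ℝ) := by
    rw [sub_neg_eq_add, add_comm, Real.Gamma_nat_eq_factorial]
  rw [e] at h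
  rw [← h]
  apply lintegral_congr
  intro w
  rw [neg_neg, ENNReal.rpow_natCast, ← ENNReal.ofReal_pow (by positivity), ← pow_mul]

lemma integrable_norm_pow (k : ℕ) :
    Integrable (fun w : ℂ => ‖w‖ ^ (2 * k)) stdComplexGaussian := by
  refine ⟨by fun_prop, ?_⟩
  rw [hasFiniteIntegral_iff_ofReal (Eventually.of_forall fun w => by positivity),
    lintegral_norm_pow]
  exact ENNReal.ofReal_lt_top

lemma integral_norm_pow (k : ℕ) :
    ∫ w, ‖w‖ ^ (2 * k) ∂stdComplexGaussian = (k.factorial : ℝ) := by
  rw [integral_eq_lintegral_of_nonneg_ae (Eventually.of_forall fun w => by positivity)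
    (by fun_prop), lintegral_norm_pow, ENNReal.toReal_ofReal (by positivity)]

lemma integrable_mixed (p q : ℕ) :
    Integrable (fun w : ℂ => w ^ p * conj w ^ q) stdComplexGaussian := by
  have h : Integrable (fun w : ℂ => 1 + ‖w‖ ^ (2 * (p + q))) stdComplexGaussian :=
    (integrable_const _).add (integrable_norm_pow _)
  refine h.mono' (by fun_prop) (Eventually.of_forall fun w => ?_)
  rw [norm_mul, norm_pow, norm_pow, RCLike.norm_conj, ← pow_add]
  have h0 : 0 ≤ ‖w‖ ^ (p + q) := by positivity
  rw [mul_comm 2, pow_mul]
  nlinarith [sq_nonneg (‖w‖ ^ (p + q) - 1)]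

/-- The mixed moments of a standard complex Gaussian. -/
noncomputable def mom (p q : ℕ) : ℂ := ∫ w, w ^ p * conj w ^ q ∂stdComplexGaussian

lemma map_rot (u : ℂ) (hu : ‖u‖ = 1) :
    stdComplexGaussian.map (fun w => u * w) = stdComplexGaussian := by
  have : IsProbabilityMeasure (stdComplexGaussian.map (fun w => u * w)) :=
    Measure.isProbabilityMeasure_map (by fun_prop)
  apply Measure.ext_of_charFun
  funext t
  rw [charFun_apply, integral_map (by fun_prop) (by fun_prop)]
  have h3 : ∀ w : ℂ, (inner ℝ (u * w) t : ℝ) = (inner ℝ w (conj u * t) : ℝ) := by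
    intro w
    rw [Complex.inner, Complex.inner]
    congr 1
    simp
    ring
  simp_rw [h3]
  rw [← charFun_apply, charFun_std, charFun_std, norm_mul, RCLike.norm_conj, hu, one_mul]

lemma mom_ne (p q : ℕ) (hp : p ≤ 2) (hq : q ≤ 2) (hpq : p ≠ q) : mom p q = 0 := by
  have h : mom p q = (Complex.I ^ p * conj Complex.I ^ q) * mom p q := by
    unfold mom
    nth_rewrite 1 [← map_rot Complex.I (by simp)]
    rw [integral_map (by fun_prop) (by fun_prop), ← integral_const_mul]
    congr 1
    funext w
    rw [map_mul, mul_pow, mul_pow]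
    ring
  have h2 : Complex.I ^ p * conj Complex.I ^ q ≠ 1 := by
    interval_cases p <;> interval_cases q <;>
      first
      | exact absurd rfl hpq
      | (simp [Complex.ext_iff, sq]; done)
      | (simp [Complex.ext_iff, sq]; norm_num)
  have h3 : (1 - Complex.I ^ p * conj Complex.I ^ q) * mom p q = 0 := by
    rw [sub_mul, one_mul, ← h, sub_self]
  rcases mul_eq_zero.1 h3 with h4 | h4
  · exact absurd (sub_eq_zero.1 h4).symm h2
  · exact h4

lemma mom_self (p : ℕ) : mom p p = (p.factorial : ℂ) := by
  unfold mom
  have h : ∀ w : ℂ, w ^ p * conj w ^ p = ((‖w‖ ^ (2 * p) : ℝ) : ℂ) := by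
    intro w
    rw [← mul_pow, Complex.mul_conj, Complex.normSq_eq_norm_sq, pow_mul]
    push_cast
    rfl
  simp_rw [h]
  rw [integral_complex_ofReal, integral_norm_pow]
  simp

variable {ι : Type*} [Fintype ι] [DecidableEq ι]

/-- Fourth mixed moments of a row. -/
noncomputable def rowK (a b c d : ι) : ℂ :=
  ∫ x : ι → ℂ, x a * x b * conj (x c * x d) ∂(Measure.pi (fun _ : ι => stdComplexGaussian))

lemma row_prod (a b c d : ι) (x : ι → ℂ) : x a * x b * conj (x c * x d)
    = ∏ j, (x j ^ ((if a = j then 1 else 0) + (if b = j then 1 else 0)) *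
      conj (x j) ^ ((if c = j then 1 else 0) + (if d = j then 1 else 0))) := by
  simp_rw [pow_add]
  rw [Finset.prod_mul_distrib, Finset.prod_mul_distrib, Finset.prod_mul_distrib,
    Finset.prod_pow_boole, Finset.prod_pow_boole, Finset.prod_pow_boole, Finset.prod_pow_boole]
  simp

lemma row_integrable (a b c d : ι) :
    Integrable (fun x : ι → ℂ => x a * x b * conj (x c * x d))
      (Measure.pi (fun _ : ι => stdComplexGaussian)) := by
  simp_rw [row_prod]
  exact Integrable.fintype_prod (f := fun j (w : ℂ) =>
    w ^ ((if a = j then 1 else 0) + (if b = j then 1 else 0)) *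
      conj w ^ ((if c = j then 1 else 0) + (if d = j then 1 else 0)))
    (fun j => integrable_mixed _ _)

lemma rowK_eq (a b c d : ι) : rowK a b c d
    = ∏ j, mom ((if a = j then 1 else 0) + (if b = j then 1 else 0))
      ((if c = j then 1 else 0) + (if d = j then 1 else 0)) := by
  unfold rowK
  simp_rw [row_prod]
  rw [integral_fintype_prod_eq_prod (f := fun j (w : ℂ) =>
    w ^ ((if a = j then 1 else 0) + (if b = j then 1 else 0)) *
      conj w ^ ((if c = j then 1 else 0) + (if d = j then 1 else 0)))]
  rfl

lemma norm_rowK_le (a b c d : ι) : ‖rowK a b c d‖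
    ≤ (if a = c ∧ b = d then 1 else 0) + (if a = d ∧ b = c then 1 else 0) := by
  rw [rowK_eq]
  by_cases h : ∀ j, ((if a = j then 1 else 0) + (if b = j then 1 else 0) : ℕ)
      = ((if c = j then 1 else 0) + (if d = j then 1 else 0))
  · have e : ∀ j, mom ((if a = j then 1 else 0) + (if b = j then 1 else 0))
        ((if c = j then 1 else 0) + (if d = j then 1 else 0))
        = ((((if a = j then 1 else 0) + (if b = j then 1 else 0) : ℕ).factorial : ℕ) : ℂ) := by
      intro j
      rw [← h j, mom_self]
    simp_rw [e]
    by_cases hab : a = b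
    · subst hab
      have ha := h a
      have hc : c = a := by
        by_contra hc
        simp [hc] at ha
        split_ifs at ha <;> omega
      have hd : d = a := by
        by_contra hd
        simp [hd] at ha
        split_ifs at ha <;> omega
      subst hc
      subst hd
      have e2 : ∀ j, ((((if d = j then 1 else 0) + (if d = j then 1 else 0) : ℕ).factorial : ℕ) : ℂ)
          = if d = j then 2 else 1 := by
        intro j
        split_ifs <;> simp
      simp_rw [e2]
      rw [Finset.prod_ite_eq]
      simp
      norm_num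
    · have e2 : ∀ j, ((((if a = j then 1 else 0) + (if b = j then 1 else 0) : ℕ).factorial : ℕ) : ℂ)
          = 1 := by
        intro j
        by_cases h1 : a = j
        · have h2 : b ≠ j := fun h2 => hab (h1.trans h2.symm)
          simp [h1, h2]
        · by_cases h2 : b = j <;> simp [h1, h2]
      simp_rw [e2]
      rw [Finset.prod_const_one, norm_one]
      have ha := h a
      have hb := h b
      have hba : b ≠ a := fun h => hab h.symm
      by_cases hca : c = a
      · subst hca
        have hdb : d = b := by
          by_contra hd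
          simp [hab, hd] at hb
        subst hdb
        simp [hab]
      · have hda : d = a := by
          by_contra hd
          simp [hca, hd] at ha
        subst hda
        have hcb : c = b := by
          by_contra hc
          simp [hab, hc] at hb
        subst hcb
        simp [hab]
  · push Not at h
    obtain ⟨j, hj⟩ := h
    rw [Finset.prod_eq_zero (Finset.mem_univ j) (mom_ne _ _ (by split_ifs <;> norm_num)
      (by split_ifs <;> norm_num) hj), norm_zero]
    positivity

end Pool.Agent.H.MP_5f83d6_pr
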