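import Mathlib
import Pool.Agent.H.MP_5f83d6_pr.Forms

open MeasureTheory ProbabilityTheory Filter
open scoped ENNReal NNReal

namespace Pool.Agent.H.MP_5f83d6_pr

/-- The law of an array of independent standard complex Gaussians. -/
noncomputable def gaussianArray (m : ℕ) (ι : Type) [Fintype ι] : Measure (Fin m → ι → ℂ) :=
  Measure.pi (fun _ => Measure.pi (fun _ => stdComplexGaussian))

instance (m : ℕ) (ι : Type) [Fintype ι] : IsProbabilityMeasure (gaussianArray m ι) := by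
  unfold gaussianArray
  infer_instance

lemma sum_cons {ι : Type} [Fintype ι] (m : ℕ) (c : (Fin (m + 1) → ι) → ℂ)
    (x : ι → ℂ) (X : Fin m → ι → ℂ) :
    ∑ j : Fin (m + 1) → ι, c j * ∏ i, (Fin.cons x X : Fin (m + 1) → ι → ℂ) i (j i)
      = ∑ j₀, x j₀ * ∑ j : Fin m → ι, c (Fin.cons j₀ j) * ∏ i, X i (j i) := by
  rw [← (Fin.consEquiv (fun _ => ι)).sum_comp, Fintype.sum_prod_type]
  apply Finset.sum_congr rfl
  intro j₀ _
  rw [Finset.mul_sum]
  apply Finset.sum_congr rfl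
  intro j _
  rw [Fin.prod_univ_succ]
  change c (Fin.cons j₀ j) * (x j₀ * ∏ i, X i (j i)) = _
  ring

/-- Negative moments of sums of squares of multilinear forms in independent Gaussian rows. -/
theorem neg_moment_forms (ι : Type) [Fintype ι] (b : ℝ) (hb : 0 < b) (hb1 : b < 1) :
    ∀ (m : ℕ) (A : Type) [Fintype A] (c : A → (Fin m → ι) → ℂ),
    ∫⁻ X, (ENNReal.ofReal (∑ a, ‖∑ j : Fin m → ι, c a j * ∏ i, X i (j i)‖ ^ 2)) ^ (-b)
      ∂(gaussianArray m ι)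
      ≤ (ENNReal.ofReal (Real.Gamma (1 - b))) ^ m *
        (ENNReal.ofReal (∑ a, ∑ j, ‖c a j‖ ^ 2)) ^ (-b) := by
  intro m
  induction m with
  | zero =>
    intro A _ c
    simp
  | succ m ih =>
    intro A _ c
    have mp := measurePreserving_piFinSuccAbove
      (fun _ : Fin (m + 1) => Measure.pi (fun _ : ι => stdComplexGaussian)) 0
    have h1 : ∫⁻ X, (ENNReal.ofReal
        (∑ a, ‖∑ j : Fin (m + 1) → ι, c a j * ∏ i, X i (j i)‖ ^ 2)) ^ (-b)
        ∂(gaussianArray (m + 1) ι)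
        = ∫⁻ p : (ι → ℂ) × (Fin m → ι → ℂ), (ENNReal.ofReal
          (∑ a, ‖∑ j₀, p.1 j₀ * ∑ j : Fin m → ι, c a (Fin.cons j₀ j) * ∏ i, p.2 i (j i)‖ ^ 2)) ^ (-b)
          ∂((Measure.pi (fun _ : ι => stdComplexGaussian)).prod (gaussianArray m ι)) := by
      unfold gaussianArray
      rw [← mp.symm.lintegral_comp_emb (MeasurableEquiv.measurableEmbedding _)]
      apply lintegral_congr
      intro p
      congr 3
      funext a
      congr 2
      rw [← sum_cons]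
      have hsy : (MeasurableEquiv.piFinSuccAbove (fun _ : Fin (m + 1) => ι → ℂ) 0).symm p
          = Fin.cons p.1 p.2 := by
        funext i
        refine Fin.cases ?_ (fun i => ?_) i <;> rfl
      rw [hsy]
    rw [h1, lintegral_prod_symm' _ (by fun_prop)]
    have h2 : ∀ X : Fin m → ι → ℂ, ∫⁻ x : ι → ℂ, (ENNReal.ofReal
          (∑ a, ‖∑ j₀, x j₀ * ∑ j : Fin m → ι, c a (Fin.cons j₀ j) * ∏ i, X i (j i)‖ ^ 2)) ^ (-b)
          ∂(Measure.pi (fun _ : ι => stdComplexGaussian))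
        ≤ ENNReal.ofReal (Real.Gamma (1 - b)) * (ENNReal.ofReal
          (∑ q : A × ι, ‖∑ j : Fin m → ι, c q.1 (Fin.cons q.2 j) * ∏ i, X i (j i)‖ ^ 2)) ^ (-b) := by
      intro X
      have := quad_neg_moment (fun (a : A) (j₀ : ι) =>
        ∑ j : Fin m → ι, c a (Fin.cons j₀ j) * ∏ i, X i (j i)) b hb hb1
      rw [Fintype.sum_prod_type]
      exact this
    calc _ ≤ ∫⁻ X : Fin m → ι → ℂ, ENNReal.ofReal (Real.Gamma (1 - b)) * (ENNReal.ofReal
          (∑ q : A × ι, ‖∑ j : Fin m → ι, c q.1 (Fin.cons q.2 j) * ∏ i, X i (j i)‖ ^ 2)) ^ (-b)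
          ∂(gaussianArray m ι) := lintegral_mono h2
      _ = ENNReal.ofReal (Real.Gamma (1 - b)) * ∫⁻ X : Fin m → ι → ℂ, (ENNReal.ofReal
          (∑ q : A × ι, ‖∑ j : Fin m → ι, c q.1 (Fin.cons q.2 j) * ∏ i, X i (j i)‖ ^ 2)) ^ (-b)
          ∂(gaussianArray m ι) := lintegral_const_mul _ (by fun_prop)
      _ ≤ ENNReal.ofReal (Real.Gamma (1 - b)) * ((ENNReal.ofReal (Real.Gamma (1 - b))) ^ m *
        (ENNReal.ofReal (∑ q : A × ι, ∑ j, ‖c q.1 (Fin.cons q.2 j)‖ ^ 2)) ^ (-b)) := by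
          gcongr
          exact ih (A × ι) (fun q j => c q.1 (Fin.cons q.2 j))
      _ = _ := by
          rw [← mul_assoc, ← pow_succ']
          congr 3
          rw [Fintype.sum_prod_type]
          apply Finset.sum_congr rfl
          intro a _
          rw [← (Fin.consEquiv (fun _ => ι)).sum_comp, Fintype.sum_prod_type]
          rfl

/-- Small ball estimate for a multilinear form in independent Gaussian rows. -/
theorem small_ball_forms {ι : Type} [Fintype ι] (b : ℝ) (hb : 0 < b) (hb1 : b < 1) (m : ℕ)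
    (c : (Fin m → ι) → ℂ) (s : ℝ) (hs : 0 < s) :
    (gaussianArray m ι) {X | ‖∑ j : Fin m → ι, c j * ∏ i, X i (j i)‖ ^ 2 < s}
      ≤ (ENNReal.ofReal s) ^ b * ((ENNReal.ofReal (Real.Gamma (1 - b))) ^ m *
        (ENNReal.ofReal (∑ j, ‖c j‖ ^ 2)) ^ (-b)) := by
  have h := neg_moment_forms ι b hb hb1 m Unit (fun _ => c)
  simp only [Fintype.sum_unique] at h
  have hm : Measurable fun X : Fin m → ι → ℂ =>
    (ENNReal.ofReal (‖∑ j : Fin m → ι, c j * ∏ i, X i (j i)‖ ^ 2)) ^ (-b) := by fun_prop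
  have hsub : {X : Fin m → ι → ℂ | ‖∑ j : Fin m → ι, c j * ∏ i, X i (j i)‖ ^ 2 < s}
      ⊆ {X | (ENNReal.ofReal s) ^ (-b) ≤
        (ENNReal.ofReal (‖∑ j : Fin m → ι, c j * ∏ i, X i (j i)‖ ^ 2)) ^ (-b)} := by
    intro X hX
    simp only [Set.mem_ofPred_eq] at hX ⊢
    rw [ENNReal.rpow_neg, ENNReal.rpow_neg]
    apply ENNReal.inv_le_inv.2
    exact ENNReal.rpow_le_rpow (ENNReal.ofReal_le_ofReal hX.le) hb.le
  have hmk := mul_meas_ge_le_lintegral₀ (μ := gaussianArray m ι) hm.aemeasurable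
    ((ENNReal.ofReal s) ^ (-b))
  have hs0 : ENNReal.ofReal s ≠ 0 := (ENNReal.ofReal_pos.2 hs).ne'
  have hone : (ENNReal.ofReal s) ^ b * (ENNReal.ofReal s) ^ (-b) = 1 := by
    rw [← ENNReal.rpow_add _ _ hs0 ENNReal.ofReal_ne_top]
    simp
  calc (gaussianArray m ι) {X | ‖∑ j : Fin m → ι, c j * ∏ i, X i (j i)‖ ^ 2 < s}
      ≤ (gaussianArray m ι) {X | (ENNReal.ofReal s) ^ (-b) ≤
        (ENNReal.ofReal (‖∑ j : Fin m → ι, c j * ∏ i, X i (j i)‖ ^ 2)) ^ (-b)} :=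
        measure_mono hsub
    _ = (ENNReal.ofReal s) ^ b * ((ENNReal.ofReal s) ^ (-b) *
        (gaussianArray m ι) {X | (ENNReal.ofReal s) ^ (-b) ≤
        (ENNReal.ofReal (‖∑ j : Fin m → ι, c j * ∏ i, X i (j i)‖ ^ 2)) ^ (-b)}) := by
        rw [← mul_assoc, hone, one_mul]
    _ ≤ _ := mul_le_mul' le_rfl (hmk.trans h)

end Pool.Agent.H.MP_5f83d6_pr
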