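import Mathlib
import Pool.Agent.H.MP_5f83d6_pr.Induct

open MeasureTheory ProbabilityTheory Filter
open scoped ENNReal NNReal

namespace Pool.Agent.H.MP_5f83d6_pr

/-- The inversion number of a permutation of `{0, ..., n-1}`: the number of pairs `i < j` with
`σ i > σ j`. -/
def inversionNumber {n : ℕ} (σ : Equiv.Perm (Fin n)) : ℕ :=
  (Finset.univ.filter (fun q : Fin n × Fin n => q.1 < q.2 ∧ σ q.2 < σ q.1)).card

/-- The `z`-permanent of a square complex matrix. -/
noncomputable def zPermanent {n : ℕ} (z : ℂ) (X : Fin n → Fin n → ℂ) : ℂ :=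
  ∑ σ : Equiv.Perm (Fin n), z ^ inversionNumber σ * ∏ i, X i (σ i)

/-- The law of an `n × n` matrix with i.i.d. standard complex Gaussian entries. -/
noncomputable def gaussianMatrix (n : ℕ) : Measure (Fin n → Fin n → ℂ) :=
  Measure.pi (fun _ => Measure.pi (fun _ => stdComplexGaussian))

instance (n : ℕ) : IsProbabilityMeasure (gaussianMatrix n) := by
  unfold gaussianMatrix
  infer_instance

/-- The coefficients of the `z`-permanent as a multilinear form. -/
noncomputable def coef {n : ℕ} (z : ℂ) (j : Fin n → Fin n) : ℂ :=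
  ∑ σ : Equiv.Perm (Fin n), if (⇑σ : Fin n → Fin n) = j then z ^ inversionNumber σ else 0

lemma zPermanent_eq {n : ℕ} (z : ℂ) (X : Fin n → Fin n → ℂ) :
    zPermanent z X = ∑ j : Fin n → Fin n, coef z j * ∏ i, X i (j i) := by
  unfold zPermanent coef
  simp_rw [Finset.sum_mul]
  rw [Finset.sum_comm]
  apply Finset.sum_congr rfl
  intro σ _
  simp

lemma coef_sq {n : ℕ} (z : ℂ) (hz : ‖z‖ = 1) (j : Fin n → Fin n) :
    ‖coef z j‖ ^ 2 = ∑ σ : Equiv.Perm (Fin n), if (⇑σ : Fin n → Fin n) = j then (1 : ℝ) else 0 := by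
  by_cases h : ∃ σ : Equiv.Perm (Fin n), (⇑σ : Fin n → Fin n) = j
  · obtain ⟨σ, rfl⟩ := h
    have e1 : coef z ⇑σ = z ^ inversionNumber σ := by
      unfold coef
      rw [Finset.sum_eq_single σ]
      · simp
      · intro τ _ hτ
        rw [if_neg]
        intro h
        exact hτ (DFunLike.coe_injective h)
      · simp
    rw [e1, norm_pow, hz, one_pow, one_pow, Finset.sum_eq_single σ]
    · simp
    · intro τ _ hτ
      rw [if_neg]
      intro h
      exact hτ (DFunLike.coe_injective h)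
    · simp
  · push Not at h
    have e1 : coef z j = 0 := by
      unfold coef
      apply Finset.sum_eq_zero
      intro σ _
      rw [if_neg (h σ)]
    rw [e1]
    symm
    simp only [norm_zero, ne_eq, OfNat.ofNat_ne_zero, not_false_eq_true, zero_pow]
    apply Finset.sum_eq_zero
    intro σ _
    rw [if_neg (h σ)]

lemma sum_coef_sq {n : ℕ} (z : ℂ) (hz : ‖z‖ = 1) :
    ∑ j : Fin n → Fin n, ‖coef z j‖ ^ 2 = (n.factorial : ℝ) := by
  simp_rw [coef_sq z hz]
  rw [Finset.sum_comm]
  simp [Fintype.card_perm]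

/-- Small ball estimate for `z`-permanents, uniform on the unit circle. -/
theorem small_ball (n : ℕ) (z : ℂ) (hz : ‖z‖ = 1) (b : ℝ) (hb : 0 < b) (hb1 : b < 1)
    (t : ℝ) (ht : 0 < t) :
    gaussianMatrix n {X | ‖zPermanent z X‖ ^ 2 < t * n.factorial}
      ≤ ENNReal.ofReal (Real.Gamma (1 - b) ^ n * t ^ b) := by
  have hG : 0 < Real.Gamma (1 - b) := Real.Gamma_pos_of_pos (by linarith)
  have hf : (0:ℝ) < n.factorial := by exact_mod_cast n.factorial_pos
  have h := small_ball_forms (ι := Fin n) b hb hb1 n (coef z) (t * n.factorial) (by positivity)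
  simp_rw [← zPermanent_eq] at h
  rw [sum_coef_sq z hz] at h
  refine h.trans (le_of_eq ?_)
  rw [ENNReal.ofReal_rpow_of_pos (by positivity), ENNReal.ofReal_rpow_of_pos hf,
    ← ENNReal.ofReal_pow hG.le, ← ENNReal.ofReal_mul (by positivity),
    ← ENNReal.ofReal_mul (by positivity)]
  congr 1
  rw [Real.mul_rpow ht.le hf.le, Real.rpow_neg hf.le]
  have : 0 < (n.factorial : ℝ) ^ b := Real.rpow_pos_of_pos hf _
  field_simp

lemma measurable_zPermanent {n : ℕ} (z : ℂ) :
    Measurable (fun X : Fin n → Fin n → ℂ => zPermanent z X) := by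
  unfold zPermanent
  fun_prop

lemma ten_pow_le (n : ℕ) : (10:ℝ) ^ n ≤ 3600 * n.factorial := by
  have h : ∀ m : ℕ, (10:ℝ) ^ (m + 10) ≤ 3600 * (m + 10).factorial := by
    intro m
    induction m with
    | zero => norm_num [Nat.factorial]
    | succ m ih =>
      have e : m + 1 + 10 = (m + 10) + 1 := by ring
      rw [e, pow_succ, Nat.factorial_succ]
      push_cast
      have h1 : (0:ℝ) ≤ ((m + 10).factorial : ℝ) := by positivity
      have h2 : (0:ℝ) ≤ m := Nat.cast_nonneg m
      nlinarith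
  rcases lt_or_ge n 10 with hn | hn
  · interval_cases n <;> norm_num [Nat.factorial]
  · obtain ⟨m, rfl⟩ := Nat.exists_eq_add_of_le hn
    rw [add_comm 10 m]
    exact h m

/-- The anti-concentration bound at the scale `√(n!)` for the squared modulus. -/
theorem anti (n : ℕ) (z : ℂ) (hz : ‖z‖ = 1) (δ : ℝ) (hδ : 0 < δ) :
    gaussianMatrix n {X | ‖zPermanent z X‖ ^ 2 < √(n.factorial : ℝ) / (60 * (1 / δ) ^ 2)}
      ≤ ENNReal.ofReal δ := by
  have hf : (0:ℝ) < n.factorial := by exact_mod_cast n.factorial_pos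
  set f : ℝ := (n.factorial : ℝ) with hfdef
  have hs : 0 < √f := Real.sqrt_pos.2 hf
  have hss : √f * √f = f := Real.mul_self_sqrt hf.le
  have h := small_ball n z hz (1/2) (by norm_num) (by norm_num) (δ ^ 2 / (60 * √f)) (by positivity)
  have e : √f / (60 * (1 / δ) ^ 2) = δ ^ 2 / (60 * √f) * f := by
    nth_rewrite 3 [← hss]
    field_simp
  rw [e]
  refine h.trans (ENNReal.ofReal_le_ofReal ?_)
  have hG : Real.Gamma (1 - 1/2) = √Real.pi := by
    rw [show (1:ℝ) - 1/2 = 1/2 by norm_num]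
    exact Real.Gamma_one_half_eq
  rw [hG, ← Real.sqrt_eq_rpow]
  have hpi : 0 < Real.pi := Real.pi_pos
  have key : √Real.pi ^ n * √(δ ^ 2 / (60 * √f)) = √(Real.pi ^ n * (δ ^ 2 / (60 * √f))) := by
    have e3 : √(Real.pi ^ n) = √Real.pi ^ n := by
      rw [Real.sqrt_eq_iff_mul_self_eq (by positivity) (by positivity), ← mul_pow,
        Real.mul_self_sqrt hpi.le]
    rw [Real.sqrt_mul (by positivity), e3]
  rw [key]
  rw [Real.sqrt_le_left hδ.le]
  -- `π ^ n ≤ 60 √(n!)`
  have h1 : Real.pi ^ n ≤ 60 * √f := by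
    have h2 : (Real.pi ^ n) ^ 2 ≤ 3600 * f := by
      have h3 : Real.pi ^ 2 ≤ 10 := by
        have := Real.pi_lt_d2
        nlinarith [Real.pi_pos]
      calc (Real.pi ^ n) ^ 2 = (Real.pi ^ 2) ^ n := by ring
        _ ≤ 10 ^ n := by gcongr
        _ ≤ 3600 * f := ten_pow_le n
    have h4 : (60 * √f) ^ 2 = 3600 * f := by
      rw [mul_pow, Real.sq_sqrt hf.le]; norm_num
    rw [← h4] at h2
    exact (sq_le_sq₀ (by positivity) (by positivity)).1 h2
  calc Real.pi ^ n * (δ ^ 2 / (60 * √f)) ≤ (60 * √f) * (δ ^ 2 / (60 * √f)) := by gcongr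
    _ = δ ^ 2 := by field_simp

end Pool.Agent.H.MP_5f83d6_pr
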