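import Mathlib
import Pool.Agent.H.MP_5f83d6_pr.ZPer
import Pool.Agent.H.MP_5f83d6_pr.Moments
import Pool.Agent.H.MP_5f83d6_pr.Count

open MeasureTheory ProbabilityTheory Filter
open scoped ENNReal NNReal ComplexConjugate

namespace Pool.Agent.H.MP_5f83d6_pr

variable {n : ℕ}

/-- The monomial attached to a quadruple of permutations. -/
noncomputable def quad (x : (Equiv.Perm (Fin n) × Equiv.Perm (Fin n)) ×
    (Equiv.Perm (Fin n) × Equiv.Perm (Fin n))) (X : Fin n → Fin n → ℂ) : ℂ :=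
  ∏ i, (X i (x.1.1 i) * X i (x.1.2 i) * conj (X i (x.2.1 i) * X i (x.2.2 i)))

/-- The phase attached to a quadruple of permutations. -/
noncomputable def phase (z : ℂ) (x : (Equiv.Perm (Fin n) × Equiv.Perm (Fin n)) ×
    (Equiv.Perm (Fin n) × Equiv.Perm (Fin n))) : ℂ :=
  z ^ inversionNumber x.1.1 * z ^ inversionNumber x.1.2 *
    conj (z ^ inversionNumber x.2.1 * z ^ inversionNumber x.2.2)

lemma norm_phase (z : ℂ) (hz : ‖z‖ = 1) (x : (Equiv.Perm (Fin n) × Equiv.Perm (Fin n)) ×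
    (Equiv.Perm (Fin n) × Equiv.Perm (Fin n))) : ‖phase z x‖ = 1 := by
  unfold phase
  simp only [norm_mul, norm_pow, RCLike.norm_conj, hz, one_pow, mul_one]

lemma fourth_expand (z : ℂ) (X : Fin n → Fin n → ℂ) :
    ((‖zPermanent z X‖ ^ 4 : ℝ) : ℂ)
      = ∑ x : (Equiv.Perm (Fin n) × Equiv.Perm (Fin n)) ×
        (Equiv.Perm (Fin n) × Equiv.Perm (Fin n)), phase z x * quad x X := by
  have h1 : zPermanent z X * zPermanent z X = ∑ p : Equiv.Perm (Fin n) × Equiv.Perm (Fin n),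
      (z ^ inversionNumber p.1 * ∏ i, X i (p.1 i)) * (z ^ inversionNumber p.2 * ∏ i, X i (p.2 i)) := by
    unfold zPermanent
    rw [Finset.sum_mul_sum, Fintype.sum_prod_type]
  have h2 : ((‖zPermanent z X‖ ^ 4 : ℝ) : ℂ)
      = (zPermanent z X * zPermanent z X) * conj (zPermanent z X * zPermanent z X) := by
    rw [Complex.mul_conj, Complex.normSq_eq_norm_sq, norm_mul]
    push_cast
    ring
  rw [h2, h1, map_sum, Finset.sum_mul_sum]
  refine Eq.trans ?_ (Fintype.sum_prod_type _).symm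
  apply Finset.sum_congr rfl
  intro p _
  apply Finset.sum_congr rfl
  intro q _
  unfold phase quad
  simp only [map_mul, map_prod, Finset.prod_mul_distrib]
  ring

lemma quad_integrable (x : (Equiv.Perm (Fin n) × Equiv.Perm (Fin n)) ×
    (Equiv.Perm (Fin n) × Equiv.Perm (Fin n))) :
    Integrable (fun X => quad x X) (gaussianMatrix n) := by
  unfold quad gaussianMatrix
  exact Integrable.fintype_prod (f := fun i (y : Fin n → ℂ) =>
    y (x.1.1 i) * y (x.1.2 i) * conj (y (x.2.1 i) * y (x.2.2 i)))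
    (fun i => row_integrable _ _ _ _)

lemma quad_integral (x : (Equiv.Perm (Fin n) × Equiv.Perm (Fin n)) ×
    (Equiv.Perm (Fin n) × Equiv.Perm (Fin n))) :
    ∫ X, quad x X ∂(gaussianMatrix n)
      = ∏ i, rowK (x.1.1 i) (x.1.2 i) (x.2.1 i) (x.2.2 i) := by
  unfold quad gaussianMatrix
  rw [integral_fintype_prod_eq_prod (f := fun i (y : Fin n → ℂ) =>
    y (x.1.1 i) * y (x.1.2 i) * conj (y (x.2.1 i) * y (x.2.2 i)))]
  rfl

lemma fourth_integrable (z : ℂ) :
    Integrable (fun X : Fin n → Fin n → ℂ => ‖zPermanent z X‖ ^ 4) (gaussianMatrix n) := by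
  have h : Integrable (fun X : Fin n → Fin n → ℂ => ((‖zPermanent z X‖ ^ 4 : ℝ) : ℂ))
      (gaussianMatrix n) := by
    simp_rw [fourth_expand]
    exact integrable_finsetSum _ fun x _ => (quad_integrable x).const_mul _
  exact_mod_cast h.re

theorem fourth_moment (z : ℂ) (hz : ‖z‖ = 1) :
    ∫ X, ‖zPermanent z X‖ ^ 4 ∂(gaussianMatrix n) ≤ (n + 1) * (n.factorial : ℝ) ^ 2 := by
  have h0 : 0 ≤ ∫ X, ‖zPermanent z X‖ ^ 4 ∂(gaussianMatrix n) :=
    integral_nonneg fun X => by positivity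
  have h1 : ((∫ X, ‖zPermanent z X‖ ^ 4 ∂(gaussianMatrix n) : ℝ) : ℂ)
      = ∑ x : (Equiv.Perm (Fin n) × Equiv.Perm (Fin n)) ×
        (Equiv.Perm (Fin n) × Equiv.Perm (Fin n)),
        phase z x * ∏ i, rowK (x.1.1 i) (x.1.2 i) (x.2.1 i) (x.2.2 i) := by
    rw [← integral_complex_ofReal]
    simp_rw [fourth_expand]
    rw [integral_finsetSum _ fun x _ => (quad_integrable x).const_mul _]
    apply Finset.sum_congr rfl
    intro x _
    rw [integral_const_mul, quad_integral]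
  have h2 : ∫ X, ‖zPermanent z X‖ ^ 4 ∂(gaussianMatrix n)
      = ‖((∫ X, ‖zPermanent z X‖ ^ 4 ∂(gaussianMatrix n) : ℝ) : ℂ)‖ := by
    rw [Complex.norm_real, Real.norm_eq_abs, abs_of_nonneg h0]
  rw [h2, h1]
  refine (norm_sum_le _ _).trans (le_trans (Finset.sum_le_sum fun x _ => ?_) sum_quad)
  rw [norm_mul, norm_phase z hz, one_mul, norm_prod]
  exact Finset.prod_le_prod (fun i _ => norm_nonneg _) fun i _ => norm_rowK_le _ _ _ _

end Pool.Agent.H.MP_5f83d6_pr
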