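import Mathlib

open MeasureTheory Filter
open scoped ENNReal NNReal

namespace Pool.Agent.H.MP_5f83d6_pr

/-- Weighted Cauchy-Schwarz inequality `(∫ w)² ≤ ∫ w² g * ∫ g⁻¹`. -/
lemma cs_weighted {α : Type*} [MeasurableSpace α] (μ : Measure α) (w g : α → ℝ≥0∞)
    (hw : Measurable w) (hg : Measurable g) (hg0 : ∀ᵐ x ∂μ, g x ≠ 0) (hgt : ∀ x, g x ≠ ∞) :
    (∫⁻ x, w x ∂μ) ^ 2 ≤ (∫⁻ x, w x ^ 2 * g x ∂μ) * ∫⁻ x, (g x)⁻¹ ∂μ := by
  have hH := ENNReal.lintegral_mul_le_Lp_mul_Lq μ (p := 2) (q := 2) Real.HolderConjugate.two_two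
    (f := fun x => w x * (g x) ^ (1 / 2 : ℝ)) (g := fun x => (g x) ^ (-(1 / 2) : ℝ))
    (by fun_prop) (by fun_prop)
  have e1 : ∫⁻ x, w x ∂μ = ∫⁻ x, ((fun x => w x * (g x) ^ (1 / 2 : ℝ)) *
      (fun x => (g x) ^ (-(1 / 2) : ℝ))) x ∂μ := by
    apply lintegral_congr_ae
    filter_upwards [hg0] with x hx
    simp only [Pi.mul_apply]
    rw [mul_assoc, ← ENNReal.rpow_add _ _ hx (hgt x)]
    simp
  have e2 : ∀ x, (w x * (g x) ^ (1 / 2 : ℝ)) ^ (2 : ℝ) = w x ^ 2 * g x := by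
    intro x
    rw [ENNReal.mul_rpow_of_nonneg _ _ (by norm_num), ← ENNReal.rpow_mul]
    norm_num
  have e3 : ∀ x, ((g x) ^ (-(1 / 2) : ℝ)) ^ (2 : ℝ) = (g x)⁻¹ := by
    intro x
    rw [← ENNReal.rpow_mul, ← ENNReal.rpow_neg_one]
    norm_num
  simp_rw [e2, e3] at hH
  rw [← e1] at hH
  calc (∫⁻ x, w x ∂μ) ^ 2
      ≤ ((∫⁻ x, w x ^ 2 * g x ∂μ) ^ (1 / 2 : ℝ) * (∫⁻ x, (g x)⁻¹ ∂μ) ^ (1 / 2 : ℝ)) ^ 2 := by
        gcongr
    _ = (∫⁻ x, w x ^ 2 * g x ∂μ) * ∫⁻ x, (g x)⁻¹ ∂μ := by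
        rw [mul_pow, ← ENNReal.rpow_natCast, ← ENNReal.rpow_natCast, ← ENNReal.rpow_mul,
          ← ENNReal.rpow_mul]
        norm_num

/-- The fibre inequality. -/
lemma fibre_ineq {α : Type*} [MeasurableSpace α] (μ : Measure α) (w g : α → ℝ≥0∞)
    (hw : Measurable w) (hg : Measurable g) (hgt : ∀ x, g x ≠ ∞) (r : ℝ≥0∞) (hr : r ≠ ∞)
    (h : (∫⁻ x, g x ∂μ) * ∫⁻ x, (g x)⁻¹ ∂μ ≤ r) :
    (∫⁻ x, w x ∂μ) ^ 2 * ∫⁻ x, g x ∂μ ≤ r * ∫⁻ x, w x ^ 2 * g x ∂μ := by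
  by_cases h0 : ∫⁻ x, g x ∂μ = 0
  · rw [h0, mul_zero]
    exact zero_le
  have hinv : ∫⁻ x, (g x)⁻¹ ∂μ ≠ ∞ := by
    intro hc
    rw [hc, ENNReal.mul_top h0] at h
    exact hr (top_le_iff.1 h)
  have hg0 : ∀ᵐ x ∂μ, g x ≠ 0 := by
    filter_upwards [ae_lt_top hg.inv hinv] with x hx
    intro hc
    rw [Pi.inv_apply, hc] at hx
    simp at hx
  calc (∫⁻ x, w x ∂μ) ^ 2 * ∫⁻ x, g x ∂μ
      ≤ ((∫⁻ x, w x ^ 2 * g x ∂μ) * ∫⁻ x, (g x)⁻¹ ∂μ) * ∫⁻ x, g x ∂μ := by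
        gcongr
        exact cs_weighted μ w g hw hg hg0 hgt
    _ = ((∫⁻ x, g x ∂μ) * ∫⁻ x, (g x)⁻¹ ∂μ) * ∫⁻ x, w x ^ 2 * g x ∂μ := by ring
    _ ≤ r * ∫⁻ x, w x ^ 2 * g x ∂μ := by gcongr

/-- Tensorization of two-sided moment inequalities. -/
lemma two_factor {α β : Type*} [MeasurableSpace α] [MeasurableSpace β] (μ : Measure α)
    (ν : Measure β) [IsProbabilityMeasure μ] [IsProbabilityMeasure ν] (g : α × β → ℝ≥0∞)
    (hg : Measurable g) (hgt : ∀ p, g p ≠ ∞) (r R : ℝ≥0∞) (hr : r ≠ ∞)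
    (h1 : ∀ y, (∫⁻ x, g (x, y) ∂μ) * (∫⁻ x, (g (x, y))⁻¹ ∂μ) ≤ r)
    (h2 : ∀ x, (∫⁻ y, g (x, y) ∂ν) * (∫⁻ y, (g (x, y))⁻¹ ∂ν) ≤ R)
    (hfin : ∫⁻ p, g p ∂(μ.prod ν) ≠ ∞) (hinv : ∫⁻ p, (g p)⁻¹ ∂(μ.prod ν) ≠ ∞) :
    (∫⁻ p, g p ∂(μ.prod ν)) * (∫⁻ p, (g p)⁻¹ ∂(μ.prod ν)) ≤ r * R := by
  set G : α → ℝ≥0∞ := fun x => ∫⁻ y, g (x, y) ∂ν with hG
  set H : α → ℝ≥0∞ := fun x => ∫⁻ y, (g (x, y))⁻¹ ∂ν with hH
  have hGm : Measurable G := hg.lintegral_prod_right'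
  have hHm : Measurable H := hg.inv.lintegral_prod_right'
  have hGi : ∫⁻ p, g p ∂(μ.prod ν) = ∫⁻ x, G x ∂μ := lintegral_prod _ hg.aemeasurable
  have hHi : ∫⁻ p, (g p)⁻¹ ∂(μ.prod ν) = ∫⁻ x, H x ∂μ := lintegral_prod _ hg.inv.aemeasurable
  have hGfin : ∀ᵐ x ∂μ, G x < ∞ := ae_lt_top hGm (by rw [← hGi]; exact hfin)
  have hHfin : ∀ᵐ x ∂μ, H x < ∞ := ae_lt_top hHm (by rw [← hHi]; exact hinv)
  -- if `H x` is finite then `g (x, ·)` is a.e. nonzero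
  have hgne : ∀ x, H x < ∞ → ∀ᵐ y ∂ν, g (x, y) ≠ 0 := by
    intro x hx
    have hm : Measurable fun y => (g (x, y))⁻¹ := (hg.comp measurable_prodMk_left).inv
    filter_upwards [ae_lt_top hm hx.ne] with y hy
    intro hc
    rw [hc] at hy
    simp at hy
  have hGne : ∀ x, H x < ∞ → G x ≠ 0 := by
    intro x hx hc
    have h3 : (fun y => g (x, y)) =ᵐ[ν] 0 :=
      (lintegral_eq_zero_iff (hg.comp measurable_prodMk_left)).1 hc
    have h4 : ∀ᵐ y ∂ν, False := by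
      filter_upwards [hgne x hx, h3] with y hy1 hy2
      exact hy1 hy2
    have h5 : ν = 0 := by
      rw [← Measure.measure_univ_eq_zero]
      have h6 : {a : β | ¬ False} = Set.univ := by simp
      rw [← h6]
      exact h4
    exact (IsProbabilityMeasure.ne_zero ν) h5
  set w : α → ℝ≥0∞ := fun x => (G x)⁻¹ with hw
  have hwm : Measurable w := hGm.inv
  set W : ℝ≥0∞ := ∫⁻ x, w x ∂μ with hW
  have hHw : ∫⁻ x, H x ∂μ ≤ R * W := by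
    rw [hW, ← lintegral_const_mul _ hwm]
    apply lintegral_mono_ae
    filter_upwards [hGfin, hHfin] with x hx1 hx2
    rw [hw, ← div_eq_mul_inv, ENNReal.le_div_iff_mul_le (Or.inl (hGne x hx2)) (Or.inl hx1.ne),
      mul_comm]
    exact h2 x
  have hwH : W ≤ ∫⁻ x, H x ∂μ := by
    apply lintegral_mono_ae
    filter_upwards [hGfin, hHfin] with x hx1 hx2
    have h3 := cs_weighted ν (fun _ => 1) (fun y => g (x, y)) measurable_const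
      (hg.comp measurable_prodMk_left) (hgne x hx2) (fun y => hgt _)
    simp only [lintegral_const, measure_univ, mul_one, one_pow, one_mul] at h3
    change 1 ≤ G x * H x at h3
    rw [hw]
    change (G x)⁻¹ ≤ H x
    rw [← one_div]
    apply ENNReal.div_le_of_le_mul
    rw [mul_comm]
    exact h3
  have hWfin : W ≠ ∞ := by
    intro hc
    rw [hc, ← hHi] at hwH
    exact hinv (top_le_iff.1 hwH)
  -- the main inequality
  have hmain : W ^ 2 * ∫⁻ p, g p ∂(μ.prod ν) ≤ r * W := by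
    have h3 : ∀ y, W ^ 2 * ∫⁻ x, g (x, y) ∂μ ≤ r * ∫⁻ x, w x ^ 2 * g (x, y) ∂μ := fun y =>
      fibre_ineq μ w (fun x => g (x, y)) hwm (hg.comp measurable_prodMk_right) (fun x => hgt _)
        r hr (h1 y)
    rw [lintegral_prod_symm' _ hg, ← lintegral_const_mul _ hg.lintegral_prod_left']
    have hm2 : Measurable fun p : α × β => w p.1 ^ 2 * g p := by fun_prop
    calc ∫⁻ y, W ^ 2 * ∫⁻ x, g (x, y) ∂μ ∂ν
        ≤ ∫⁻ y, r * ∫⁻ x, w x ^ 2 * g (x, y) ∂μ ∂ν := lintegral_mono h3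
      _ = r * ∫⁻ y, ∫⁻ x, w x ^ 2 * g (x, y) ∂μ ∂ν :=
          lintegral_const_mul _ hm2.lintegral_prod_left'
      _ = r * ∫⁻ p, w p.1 ^ 2 * g p ∂(μ.prod ν) := by rw [lintegral_prod_symm' _ hm2]
      _ = r * ∫⁻ x, ∫⁻ y, w x ^ 2 * g (x, y) ∂ν ∂μ := by
          rw [lintegral_prod _ hm2.aemeasurable]
      _ = r * ∫⁻ x, w x ^ 2 * G x ∂μ := by
          congr 1
          apply lintegral_congr
          intro x
          have hm3 : Measurable fun y => g (x, y) := hg.comp measurable_prodMk_left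
          exact lintegral_const_mul _ hm3
      _ ≤ r * W := by
          gcongr
          apply lintegral_mono_ae
          filter_upwards [hGfin, hHfin] with x hx1 hx2
          rw [hw]
          change ((G x)⁻¹) ^ 2 * G x ≤ (G x)⁻¹
          rw [sq, mul_assoc, ENNReal.inv_mul_cancel (hGne x hx2) hx1.ne, mul_one]
  have hWG : W * ∫⁻ p, g p ∂(μ.prod ν) ≤ r := by
    by_cases hW0 : W = 0
    · rw [hW0, zero_mul]
      exact zero_le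
    · rw [sq, mul_assoc, mul_comm r W] at hmain
      exact (ENNReal.mul_le_mul_iff_right hW0 hWfin).1 hmain
  calc (∫⁻ p, g p ∂(μ.prod ν)) * (∫⁻ p, (g p)⁻¹ ∂(μ.prod ν))
      ≤ (∫⁻ p, g p ∂(μ.prod ν)) * (R * W) := by
        rw [hHi]
        gcongr
    _ = (W * ∫⁻ p, g p ∂(μ.prod ν)) * R := by ring
    _ ≤ r * R := by gcongr

end Pool.Agent.H.MP_5f83d6_pr
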