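import Mathlib
import Pool.Agent.H.MP_5f83d6_pr.Induct
import Pool.Agent.H.MP_5f83d6_pr.Harmonic

open MeasureTheory ProbabilityTheory Filter
open scoped ENNReal NNReal

namespace Pool.Agent.H.MP_5f83d6_pr

lemma row_moment {ι : Type*} [Fintype ι] (v : ι → ℂ) (b : ℝ) (hb1 : b < 1)
    (hv : 0 < ∑ j, ‖v j‖ ^ 2) :
    ∫⁻ x : ι → ℂ, (ENNReal.ofReal (‖∑ j, x j * v j‖ ^ 2)) ^ (-b)
      ∂(Measure.pi (fun _ : ι => stdComplexGaussian))
      = (ENNReal.ofReal (∑ j, ‖v j‖ ^ 2)) ^ (-b) * ENNReal.ofReal (Real.Gamma (1 - b)) := by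
  rw [← lin_neg_moment v b hb1 hv, ← lintegral_const_mul _ (by fun_prop)]
  apply lintegral_congr
  intro x
  rw [← ENNReal.mul_rpow_of_ne_top ENNReal.ofReal_ne_top ENNReal.ofReal_ne_top,
    ← ENNReal.ofReal_mul hv.le, mul_div_cancel₀ _ hv.ne']

lemma row_second {ι : Type*} [Fintype ι] (v : ι → ℂ) :
    ∫⁻ x : ι → ℂ, ENNReal.ofReal (‖∑ j, x j * v j‖ ^ 2)
      ∂(Measure.pi (fun _ : ι => stdComplexGaussian))
      = ENNReal.ofReal (∑ j, ‖v j‖ ^ 2) := by
  have h0 : 0 ≤ ∑ j, ‖v j‖ ^ 2 := Finset.sum_nonneg fun j _ => by positivity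
  rcases h0.eq_or_lt with h | h
  · have hv : ∀ j, v j = 0 := by
      intro j
      have := (Finset.sum_eq_zero_iff_of_nonneg (fun j _ => by positivity)).1 h.symm j
        (Finset.mem_univ j)
      simpa using this
    simp [hv]
  · have h1 := row_moment v (-1) (by norm_num) h
    simp only [neg_neg, ENNReal.rpow_one] at h1
    rw [h1]
    have : Real.Gamma (1 - -1) = 1 := by
      rw [show (1 : ℝ) - -1 = 2 by norm_num]
      exact Real.Gamma_two
    rw [this, ENNReal.ofReal_one, mul_one]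

lemma row_two_sided {ι : Type*} [Fintype ι] (v : ι → ℂ) (b : ℝ) (hb : 0 < b) (hb1 : b < 1) :
    (∫⁻ x : ι → ℂ, (ENNReal.ofReal (‖∑ j, x j * v j‖ ^ 2)) ^ b
      ∂(Measure.pi (fun _ : ι => stdComplexGaussian))) *
    (∫⁻ x : ι → ℂ, ((ENNReal.ofReal (‖∑ j, x j * v j‖ ^ 2)) ^ b)⁻¹
      ∂(Measure.pi (fun _ : ι => stdComplexGaussian)))
      ≤ ENNReal.ofReal (Real.Gamma (1 + b) * Real.Gamma (1 - b)) := by
  have h0 : 0 ≤ ∑ j, ‖v j‖ ^ 2 := Finset.sum_nonneg fun j _ => by positivity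
  rcases h0.eq_or_lt with h | h
  · have hv : ∀ j, v j = 0 := by
      intro j
      have := (Finset.sum_eq_zero_iff_of_nonneg (fun j _ => by positivity)).1 h.symm j
        (Finset.mem_univ j)
      simpa using this
    simp [hv, hb]
  · have h1 := row_moment v (-b) (by linarith) h
    have h2 := row_moment v b hb1 h
    simp_rw [ENNReal.rpow_neg] at h2
    simp only [neg_neg, sub_neg_eq_add] at h1
    rw [h1, h2]
    have hG1 : 0 ≤ Real.Gamma (1 + b) := (Real.Gamma_pos_of_pos (by linarith)).le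
    have hr : ENNReal.ofReal (∑ j, ‖v j‖ ^ 2) ≠ 0 := (ENNReal.ofReal_pos.2 h).ne'
    have hr1 : (ENNReal.ofReal (∑ j, ‖v j‖ ^ 2)) ^ b ≠ 0 := by
      simp [ENNReal.rpow_eq_zero_iff, h, hb.not_gt]
    have hr2 : (ENNReal.ofReal (∑ j, ‖v j‖ ^ 2)) ^ b ≠ ∞ :=
      ENNReal.rpow_ne_top_of_nonneg hb.le ENNReal.ofReal_ne_top
    rw [ENNReal.ofReal_mul hG1]
    apply le_of_eq
    calc _ = ((ENNReal.ofReal (∑ j, ‖v j‖ ^ 2)) ^ b * ((ENNReal.ofReal (∑ j, ‖v j‖ ^ 2)) ^ b)⁻¹) *
        (ENNReal.ofReal (Real.Gamma (1 + b)) * ENNReal.ofReal (Real.Gamma (1 - b))) := by ring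
      _ = _ := by rw [ENNReal.mul_inv_cancel hr1 hr2, one_mul]

/-- Second moments of sums of squares of multilinear forms. -/
theorem second_moment_forms (ι : Type) [Fintype ι] :
    ∀ (m : ℕ) (c : (Fin m → ι) → ℂ),
    ∫⁻ X, ENNReal.ofReal (‖∑ j : Fin m → ι, c j * ∏ i, X i (j i)‖ ^ 2) ∂(gaussianArray m ι)
      = ENNReal.ofReal (∑ j, ‖c j‖ ^ 2) := by
  intro m
  induction m with
  | zero =>
    intro c
    simp
  | succ m ih =>
    intro c
    have mp := measurePreserving_piFinSuccAbove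
      (fun _ : Fin (m + 1) => Measure.pi (fun _ : ι => stdComplexGaussian)) 0
    have h1 : ∫⁻ X, ENNReal.ofReal
        (‖∑ j : Fin (m + 1) → ι, c j * ∏ i, X i (j i)‖ ^ 2) ∂(gaussianArray (m + 1) ι)
        = ∫⁻ p : (ι → ℂ) × (Fin m → ι → ℂ), ENNReal.ofReal
          (‖∑ j₀, p.1 j₀ * ∑ j : Fin m → ι, c (Fin.cons j₀ j) * ∏ i, p.2 i (j i)‖ ^ 2)
          ∂((Measure.pi (fun _ : ι => stdComplexGaussian)).prod (gaussianArray m ι)) := by
      unfold gaussianArray
      rw [← mp.symm.lintegral_comp_emb (MeasurableEquiv.measurableEmbedding _)]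
      apply lintegral_congr
      intro p
      congr 3
      rw [← sum_cons]
      have hsy : (MeasurableEquiv.piFinSuccAbove (fun _ : Fin (m + 1) => ι → ℂ) 0).symm p
          = Fin.cons p.1 p.2 := by
        funext i
        refine Fin.cases ?_ (fun i => ?_) i <;> rfl
      rw [hsy]
    rw [h1, lintegral_prod_symm' _ (by fun_prop)]
    simp_rw [row_second]
    have h2 : ∀ X : Fin m → ι → ℂ, ENNReal.ofReal
        (∑ j₀, ‖∑ j : Fin m → ι, c (Fin.cons j₀ j) * ∏ i, X i (j i)‖ ^ 2)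
        = ∑ j₀, ENNReal.ofReal
          (‖∑ j : Fin m → ι, c (Fin.cons j₀ j) * ∏ i, X i (j i)‖ ^ 2) := fun X =>
      ENNReal.ofReal_sum_of_nonneg fun _ _ => by positivity
    simp_rw [h2]
    rw [lintegral_finsetSum _ (fun _ _ => by fun_prop)]
    simp_rw [ih]
    rw [← ENNReal.ofReal_sum_of_nonneg
      (fun _ _ => Finset.sum_nonneg fun _ _ => by positivity)]
    congr 1
    rw [← (Fin.consEquiv (fun _ => ι)).sum_comp, Fintype.sum_prod_type]
    rfl

/-- Two-sided moment inequality for multilinear forms in independent complex Gaussian rows. -/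
theorem two_sided_forms (ι : Type) [Fintype ι] (b : ℝ) (hb : 0 < b) (hb1 : b < 1) :
    ∀ (m : ℕ) (c : (Fin m → ι) → ℂ),
    (∫⁻ X, (ENNReal.ofReal (‖∑ j : Fin m → ι, c j * ∏ i, X i (j i)‖ ^ 2)) ^ b
      ∂(gaussianArray m ι)) *
    (∫⁻ X, ((ENNReal.ofReal (‖∑ j : Fin m → ι, c j * ∏ i, X i (j i)‖ ^ 2)) ^ b)⁻¹
      ∂(gaussianArray m ι))
      ≤ (ENNReal.ofReal (Real.Gamma (1 + b) * Real.Gamma (1 - b))) ^ m := by
  intro m
  induction m with
  | zero =>
    intro c
    simp only [Finset.univ_eq_empty, Finset.prod_empty, mul_one, lintegral_const, measure_univ,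
      pow_zero]
    exact ENNReal.mul_inv_le_one _
  | succ m ih =>
    intro c
    have hs0 : 0 ≤ ∑ j, ‖c j‖ ^ 2 := Finset.sum_nonneg fun j _ => by positivity
    rcases hs0.eq_or_lt with hz | hpos
    · have hc : ∀ j, c j = 0 := by
        intro j
        have := (Finset.sum_eq_zero_iff_of_nonneg (fun j _ => by positivity)).1 hz.symm j
          (Finset.mem_univ j)
        simpa using this
      simp [hc, hb]
    have mp := measurePreserving_piFinSuccAbove
      (fun _ : Fin (m + 1) => Measure.pi (fun _ : ι => stdComplexGaussian)) 0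
    set g : (ι → ℂ) × (Fin m → ι → ℂ) → ℝ≥0∞ := fun p => (ENNReal.ofReal
      (‖∑ j₀, p.1 j₀ * ∑ j : Fin m → ι, c (Fin.cons j₀ j) * ∏ i, p.2 i (j i)‖ ^ 2)) ^ b with hg
    have hsy : ∀ p, (MeasurableEquiv.piFinSuccAbove (fun _ : Fin (m + 1) => ι → ℂ) 0).symm p
        = Fin.cons p.1 p.2 := by
      intro p
      funext i
      refine Fin.cases ?_ (fun i => ?_) i <;> rfl
    have h1 : ∀ Φ : ℝ≥0∞ → ℝ≥0∞, ∫⁻ X, Φ ((ENNReal.ofReal
        (‖∑ j : Fin (m + 1) → ι, c j * ∏ i, X i (j i)‖ ^ 2)) ^ b) ∂(gaussianArray (m + 1) ι)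
        = ∫⁻ p, Φ (g p)
          ∂((Measure.pi (fun _ : ι => stdComplexGaussian)).prod (gaussianArray m ι)) := by
      intro Φ
      unfold gaussianArray
      rw [← mp.symm.lintegral_comp_emb (MeasurableEquiv.measurableEmbedding _)]
      apply lintegral_congr
      intro p
      rw [hsy, sum_cons]
    have hgm : Measurable g := by fun_prop
    have e1 := h1 id
    have e2 := h1 (fun t => t⁻¹)
    simp only [id] at e1
    have hfin : ∫⁻ p, g p ∂((Measure.pi (fun _ : ι => stdComplexGaussian)).prod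
        (gaussianArray m ι)) ≠ ∞ := by
      rw [← e1]
      refine ne_of_lt (lt_of_le_of_lt (b := ∫⁻ X, (1 + ENNReal.ofReal
        (‖∑ j : Fin (m + 1) → ι, c j * ∏ i, X i (j i)‖ ^ 2)) ∂(gaussianArray (m + 1) ι)) ?_ ?_)
      · apply lintegral_mono
        intro X
        rcases le_total (ENNReal.ofReal
          (‖∑ j : Fin (m + 1) → ι, c j * ∏ i, X i (j i)‖ ^ 2)) 1 with h | h
        · exact (ENNReal.rpow_le_one h hb.le).trans le_self_add
        · exact ((ENNReal.rpow_le_rpow_of_exponent_le h hb1.le).trans_eq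
            (ENNReal.rpow_one _)).trans le_add_self
      · rw [lintegral_add_left measurable_const, second_moment_forms]
        simp
    have hinv : ∫⁻ p, (g p)⁻¹ ∂((Measure.pi (fun _ : ι => stdComplexGaussian)).prod
        (gaussianArray m ι)) ≠ ∞ := by
      rw [← e2]
      have h3 := neg_moment_forms ι b hb hb1 (m + 1) Unit (fun _ => c)
      simp only [Fintype.sum_unique, ENNReal.rpow_neg] at h3
      refine ne_of_lt (lt_of_le_of_lt h3 ?_)
      apply ENNReal.mul_lt_top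
      · exact ENNReal.pow_lt_top ENNReal.ofReal_lt_top
      · rw [ENNReal.inv_lt_top]
        exact ENNReal.rpow_pos (ENNReal.ofReal_pos.2 hpos) ENNReal.ofReal_ne_top
    have hrow : ∀ X : Fin m → ι → ℂ,
        (∫⁻ x, g (x, X) ∂(Measure.pi (fun _ : ι => stdComplexGaussian))) *
        (∫⁻ x, (g (x, X))⁻¹ ∂(Measure.pi (fun _ : ι => stdComplexGaussian)))
          ≤ ENNReal.ofReal (Real.Gamma (1 + b) * Real.Gamma (1 - b)) := by
      intro X
      simp only [hg]
      exact row_two_sided (fun j₀ => ∑ j : Fin m → ι, c (Fin.cons j₀ j) * ∏ i, X i (j i)) b hb hb1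
    have hrest : ∀ x : ι → ℂ,
        (∫⁻ X, g (x, X) ∂(gaussianArray m ι)) * (∫⁻ X, (g (x, X))⁻¹ ∂(gaussianArray m ι))
          ≤ (ENNReal.ofReal (Real.Gamma (1 + b) * Real.Gamma (1 - b))) ^ m := by
      intro x
      simp only [hg]
      have h4 := ih (fun j => ∑ j₀, x j₀ * c (Fin.cons j₀ j))
      have h5 : ∀ X : Fin m → ι → ℂ,
          ∑ j : Fin m → ι, (∑ j₀, x j₀ * c (Fin.cons j₀ j)) * ∏ i, X i (j i)
          = ∑ j₀, x j₀ * ∑ j : Fin m → ι, c (Fin.cons j₀ j) * ∏ i, X i (j i) := by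
        intro X
        simp_rw [Finset.mul_sum, Finset.sum_mul]
        rw [Finset.sum_comm]
        apply Finset.sum_congr rfl
        intro _ _
        apply Finset.sum_congr rfl
        intro _ _
        ring
      simp_rw [h5] at h4
      exact h4
    have hmain := two_factor (Measure.pi (fun _ : ι => stdComplexGaussian)) (gaussianArray m ι)
      g hgm (fun p => ENNReal.rpow_ne_top_of_nonneg hb.le ENNReal.ofReal_ne_top)
      (ENNReal.ofReal (Real.Gamma (1 + b) * Real.Gamma (1 - b)))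
      ((ENNReal.ofReal (Real.Gamma (1 + b) * Real.Gamma (1 - b))) ^ m)
      ENNReal.ofReal_ne_top
      hrow hrest
      hfin hinv
    rw [e1, e2, pow_succ']
    exact hmain

end Pool.Agent.H.MP_5f83d6_pr
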