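import Mathlib
import Pool.Agent.H.MP_5f83d6_pr.TwoSided
import Pool.Agent.H.MP_5f83d6_pr.Fourth

open MeasureTheory ProbabilityTheory Filter
open scoped ENNReal NNReal ComplexConjugate

namespace Pool.Agent.H.MP_5f83d6_pr

/-- Lyapunov interpolation between the moments of orders `b`, `1` and `2`. -/
lemma lyapunov {Ω : Type*} [MeasurableSpace Ω] (μ : Measure Ω) (Z : Ω → ℝ≥0∞) (hZ : Measurable Z)
    (b : ℝ) (hb : 0 < b) (hb1 : b < 1) :
    (∫⁻ x, Z x ∂μ) ^ (2 - b) ≤ (∫⁻ x, Z x ^ b ∂μ) * (∫⁻ x, Z x ^ (2 : ℝ) ∂μ) ^ (1 - b) := by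
  have h2b : 0 < 2 - b := by linarith
  have h1b : 0 < 1 - b := by linarith
  have hpq : (2 - b).HolderConjugate ((2 - b) / (1 - b)) := by
    rw [Real.holderConjugate_iff]
    refine ⟨by linarith, ?_⟩
    field_simp
    ring
  have hH := ENNReal.lintegral_mul_le_Lp_mul_Lq μ hpq (f := fun x => Z x ^ (b / (2 - b)))
    (g := fun x => Z x ^ (2 * (1 - b) / (2 - b))) (by fun_prop) (by fun_prop)
  have e1 : ∀ x, ((fun x => Z x ^ (b / (2 - b))) * (fun x => Z x ^ (2 * (1 - b) / (2 - b)))) x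
      = Z x := by
    intro x
    simp only [Pi.mul_apply]
    rw [← ENNReal.rpow_add_of_nonneg _ _ (by positivity) (by positivity)]
    have : b / (2 - b) + 2 * (1 - b) / (2 - b) = 1 := by field_simp; ring
    rw [this, ENNReal.rpow_one]
  have e2 : ∀ x, (Z x ^ (b / (2 - b))) ^ (2 - b) = Z x ^ b := by
    intro x
    rw [← ENNReal.rpow_mul]
    congr 1
    field_simp
  have e3 : ∀ x, (Z x ^ (2 * (1 - b) / (2 - b))) ^ ((2 - b) / (1 - b)) = Z x ^ (2 : ℝ) := by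
    intro x
    rw [← ENNReal.rpow_mul]
    congr 1
    field_simp
  simp_rw [e1, e2, e3] at hH
  calc (∫⁻ x, Z x ∂μ) ^ (2 - b)
      ≤ ((∫⁻ x, Z x ^ b ∂μ) ^ (1 / (2 - b)) *
        (∫⁻ x, Z x ^ (2 : ℝ) ∂μ) ^ (1 / ((2 - b) / (1 - b)))) ^ (2 - b) :=
        ENNReal.rpow_le_rpow hH h2b.le
    _ = (∫⁻ x, Z x ^ b ∂μ) * (∫⁻ x, Z x ^ (2 : ℝ) ∂μ) ^ (1 - b) := by
        rw [ENNReal.mul_rpow_of_nonneg _ _ h2b.le, ← ENNReal.rpow_mul, ← ENNReal.rpow_mul]
        have a1 : 1 / (2 - b) * (2 - b) = 1 := by field_simp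
        have a2 : 1 / ((2 - b) / (1 - b)) * (2 - b) = 1 - b := by field_simp
        rw [a1, a2, ENNReal.rpow_one]

variable {n : ℕ}

lemma second_moment (z : ℂ) (hz : ‖z‖ = 1) :
    ∫⁻ X, ENNReal.ofReal (‖zPermanent z X‖ ^ 2) ∂(gaussianMatrix n)
      = ENNReal.ofReal (n.factorial : ℝ) := by
  have h := second_moment_forms (Fin n) n (coef z)
  rw [sum_coef_sq z hz] at h
  simp_rw [← zPermanent_eq] at h
  exact h

lemma fourth_moment' (z : ℂ) (hz : ‖z‖ = 1) :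
    ∫⁻ X, (ENNReal.ofReal (‖zPermanent z X‖ ^ 2)) ^ (2 : ℝ) ∂(gaussianMatrix n)
      ≤ ENNReal.ofReal ((n + 1) * (n.factorial : ℝ) ^ 2) := by
  have h1 : ∀ X : Fin n → Fin n → ℂ, (ENNReal.ofReal (‖zPermanent z X‖ ^ 2)) ^ (2 : ℝ)
      = ENNReal.ofReal (‖zPermanent z X‖ ^ 4) := by
    intro X
    rw [ENNReal.rpow_two, ← ENNReal.ofReal_pow (by positivity), ← pow_mul]
  simp_rw [h1]
  rw [← ofReal_integral_eq_lintegral_ofReal (fourth_integrable z)
    (Eventually.of_forall fun X => by positivity)]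
  exact ENNReal.ofReal_le_ofReal (fourth_moment z hz)

/-- Lower bound for small positive moments. -/
lemma pos_moment_lower (z : ℂ) (hz : ‖z‖ = 1) (b : ℝ) (hb : 0 < b) (hb1 : b < 1) :
    ENNReal.ofReal ((n.factorial : ℝ) ^ b) ≤ ENNReal.ofReal (((n : ℝ) + 1) ^ (1 - b)) *
      ∫⁻ X, (ENNReal.ofReal (‖zPermanent z X‖ ^ 2)) ^ b ∂(gaussianMatrix n) := by
  have hf : (0 : ℝ) < n.factorial := by exact_mod_cast n.factorial_pos
  have hn : (0 : ℝ) < (n : ℝ) + 1 := by positivity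
  have hm : Measurable fun X : Fin n → Fin n → ℂ => ENNReal.ofReal (‖zPermanent z X‖ ^ 2) :=
    ((measurable_zPermanent z).norm.pow_const 2).ennreal_ofReal
  have h := lyapunov (gaussianMatrix n) _ hm b hb hb1
  rw [second_moment z hz] at h
  have h2 : ENNReal.ofReal (n.factorial : ℝ) ^ (2 - b)
      ≤ (∫⁻ X, (ENNReal.ofReal (‖zPermanent z X‖ ^ 2)) ^ b ∂(gaussianMatrix n)) *
        (ENNReal.ofReal ((n + 1) * (n.factorial : ℝ) ^ 2)) ^ (1 - b) :=
    h.trans (mul_le_mul' le_rfl (ENNReal.rpow_le_rpow (fourth_moment' z hz) (by linarith)))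
  rw [ENNReal.ofReal_rpow_of_pos hf, ENNReal.ofReal_rpow_of_pos (by positivity)] at h2
  -- divide by `(n!) ^ (2 - 2 b)`
  have e1 : ((n : ℝ) + 1) ^ (1 - b) * (n.factorial : ℝ) ^ (2 - 2 * b)
      = ((n + 1) * (n.factorial : ℝ) ^ 2) ^ (1 - b) := by
    rw [Real.mul_rpow hn.le (by positivity), ← Real.rpow_natCast, ← Real.rpow_mul hf.le]
    congr 2
    push_cast
    ring
  have e2 : (n.factorial : ℝ) ^ b * (n.factorial : ℝ) ^ (2 - 2 * b) = (n.factorial : ℝ) ^ (2 - b) := by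
    rw [← Real.rpow_add hf]
    congr 1
    ring
  rw [← e1, ← e2, ENNReal.ofReal_mul (by positivity), ENNReal.ofReal_mul (by positivity)] at h2
  have h3 : ENNReal.ofReal ((n.factorial : ℝ) ^ (2 - 2 * b)) ≠ 0 :=
    (ENNReal.ofReal_pos.2 (Real.rpow_pos_of_pos hf _)).ne'
  rw [← mul_assoc, mul_comm (∫⁻ X, _ ∂_) (ENNReal.ofReal _)] at h2
  exact (ENNReal.mul_le_mul_iff_left h3 ENNReal.ofReal_ne_top).1 h2

/-- Small ball estimate at the true scale with polynomial loss in front of a two-sided factor. -/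
theorem small_ball_two (z : ℂ) (hz : ‖z‖ = 1) (b : ℝ) (hb : 0 < b) (hb1 : b < 1)
    (t : ℝ) (ht : 0 < t) :
    gaussianMatrix n {X | ‖zPermanent z X‖ ^ 2 < t * n.factorial}
      ≤ ENNReal.ofReal (((n : ℝ) + 1) ^ (1 - b) *
        (Real.Gamma (1 + b) * Real.Gamma (1 - b)) ^ n * t ^ b) := by
  have hf : (0 : ℝ) < n.factorial := by exact_mod_cast n.factorial_pos
  have hG1 : 0 < Real.Gamma (1 - b) := Real.Gamma_pos_of_pos (by linarith)
  have hG2 : 0 < Real.Gamma (1 + b) := Real.Gamma_pos_of_pos (by linarith)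
  have htwo := two_sided_forms (Fin n) b hb hb1 n (coef z)
  simp_rw [← zPermanent_eq] at htwo
  have hlow := pos_moment_lower (n := n) z hz b hb hb1
  change (∫⁻ X, (ENNReal.ofReal (‖zPermanent z X‖ ^ 2)) ^ b ∂(gaussianMatrix n)) *
    (∫⁻ X, ((ENNReal.ofReal (‖zPermanent z X‖ ^ 2)) ^ b)⁻¹ ∂(gaussianMatrix n)) ≤ _ at htwo
  set P := ∫⁻ X, (ENNReal.ofReal (‖zPermanent z X‖ ^ 2)) ^ b ∂(gaussianMatrix n) with hP
  set N := ∫⁻ X, ((ENNReal.ofReal (‖zPermanent z X‖ ^ 2)) ^ b)⁻¹ ∂(gaussianMatrix n) with hN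
  have hm : Measurable fun X : Fin n → Fin n → ℂ =>
      ((ENNReal.ofReal (‖zPermanent z X‖ ^ 2)) ^ b)⁻¹ :=
    (((measurable_zPermanent z).norm.pow_const 2).ennreal_ofReal.pow_const b).inv
  have hmk := mul_meas_ge_le_lintegral₀ (μ := gaussianMatrix n) hm.aemeasurable
    (((ENNReal.ofReal (t * n.factorial)) ^ b)⁻¹)
  rw [← hN] at hmk
  have hsub : {X : Fin n → Fin n → ℂ | ‖zPermanent z X‖ ^ 2 < t * n.factorial}
      ⊆ {X | ((ENNReal.ofReal (t * n.factorial)) ^ b)⁻¹ ≤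
        ((ENNReal.ofReal (‖zPermanent z X‖ ^ 2)) ^ b)⁻¹} := by
    intro X hX
    simp only [Set.mem_ofPred_eq] at hX ⊢
    apply ENNReal.inv_le_inv.2
    exact ENNReal.rpow_le_rpow (ENNReal.ofReal_le_ofReal hX.le) hb.le
  have hs0 : (ENNReal.ofReal (t * n.factorial)) ^ b ≠ 0 :=
    (ENNReal.rpow_pos (ENNReal.ofReal_pos.2 (by positivity)) ENNReal.ofReal_ne_top).ne'
  have hs1 : (ENNReal.ofReal (t * n.factorial)) ^ b ≠ ∞ :=
    ENNReal.rpow_ne_top_of_nonneg hb.le ENNReal.ofReal_ne_top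
  have hPr : gaussianMatrix n {X | ‖zPermanent z X‖ ^ 2 < t * n.factorial}
      ≤ (ENNReal.ofReal (t * n.factorial)) ^ b * N := by
    calc gaussianMatrix n {X | ‖zPermanent z X‖ ^ 2 < t * n.factorial}
        ≤ gaussianMatrix n {X | ((ENNReal.ofReal (t * n.factorial)) ^ b)⁻¹ ≤
          ((ENNReal.ofReal (‖zPermanent z X‖ ^ 2)) ^ b)⁻¹} := measure_mono hsub
      _ = (ENNReal.ofReal (t * n.factorial)) ^ b * (((ENNReal.ofReal (t * n.factorial)) ^ b)⁻¹ *
          gaussianMatrix n {X | ((ENNReal.ofReal (t * n.factorial)) ^ b)⁻¹ ≤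
          ((ENNReal.ofReal (‖zPermanent z X‖ ^ 2)) ^ b)⁻¹}) := by
          rw [← mul_assoc, ENNReal.mul_inv_cancel hs0 hs1, one_mul]
      _ ≤ _ := mul_le_mul' le_rfl hmk
  have e1 : (ENNReal.ofReal (t * n.factorial)) ^ b
      = ENNReal.ofReal (t ^ b) * ENNReal.ofReal ((n.factorial : ℝ) ^ b) := by
    rw [ENNReal.ofReal_rpow_of_pos (by positivity), Real.mul_rpow ht.le hf.le,
      ENNReal.ofReal_mul (by positivity)]
  calc gaussianMatrix n {X | ‖zPermanent z X‖ ^ 2 < t * n.factorial}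
      ≤ ENNReal.ofReal (t ^ b) * ENNReal.ofReal ((n.factorial : ℝ) ^ b) * N := by
        rw [← e1]; exact hPr
    _ ≤ ENNReal.ofReal (t ^ b) * (ENNReal.ofReal (((n : ℝ) + 1) ^ (1 - b)) * P) * N := by gcongr
    _ = ENNReal.ofReal (t ^ b) * ENNReal.ofReal (((n : ℝ) + 1) ^ (1 - b)) * (P * N) := by ring
    _ ≤ ENNReal.ofReal (t ^ b) * ENNReal.ofReal (((n : ℝ) + 1) ^ (1 - b)) *
        (ENNReal.ofReal (Real.Gamma (1 + b) * Real.Gamma (1 - b))) ^ n := by gcongr
    _ = _ := by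
        rw [← ENNReal.ofReal_pow (by positivity), ← ENNReal.ofReal_mul (by positivity),
          ← ENNReal.ofReal_mul (by positivity)]
        congr 1
        ring

/-- `Γ(1+b) Γ(1-b) ≤ exp ((9/4) b²)` for `0 < b ≤ 1/2`. -/
lemma gamma_prod_le (b : ℝ) (hb : 0 < b) (hb2 : b ≤ 1 / 2) :
    Real.Gamma (1 + b) * Real.Gamma (1 - b) ≤ Real.exp (9 / 4 * b ^ 2) := by
  have hpi : 0 < Real.pi := Real.pi_pos
  have hpi2 : Real.pi ^ 2 ≤ 9.87 := by
    have := Real.pi_lt_d4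
    nlinarith
  have h1 : Real.Gamma (1 + b) * Real.Gamma (1 - b) = Real.pi * b / Real.sin (Real.pi * b) := by
    rw [add_comm, Real.Gamma_add_one hb.ne', mul_assoc, Real.Gamma_mul_Gamma_one_sub]
    ring
  have hx : 0 < Real.pi * b := by positivity
  have hsin : Real.pi * b - (Real.pi * b) ^ 3 / 6 ≤ Real.sin (Real.pi * b) :=
    Real.sin_ge_sub_cube hx.le
  -- convexity of the exponential function
  have hb4 : 0 ≤ 4 * b ^ 2 := by positivity
  have hb5 : 4 * b ^ 2 ≤ 1 := by nlinarith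
  have hexp : Real.exp (-(9 / 4 * b ^ 2)) ≤ 1 - 4 * b ^ 2 * (1 - Real.exp (-(9 / 16))) := by
    have hc := convexOn_exp.2 (Set.mem_univ (0 : ℝ)) (Set.mem_univ (-(9 / 16) : ℝ))
      (sub_nonneg.2 hb5) hb4 (by ring)
    simp only [smul_eq_mul, mul_zero, zero_add, Real.exp_zero, mul_one] at hc
    have e : 4 * b ^ 2 * (-(9 / 16)) = -(9 / 4 * b ^ 2) := by ring
    rw [e] at hc
    linarith
  have he : Real.exp (-(9 / 16)) ≤ 0.5887 := by
    have h2 : (1.7 : ℝ) ≤ Real.exp (9 / 16) := by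
      have := Real.quadratic_le_exp_of_nonneg (x := 9 / 16) (by norm_num)
      linarith
    rw [Real.exp_neg]
    calc (Real.exp (9 / 16))⁻¹ ≤ (1.7 : ℝ)⁻¹ := by gcongr
      _ ≤ 0.5887 := by norm_num
  have hkey : Real.exp (-(9 / 4 * b ^ 2)) * (Real.pi * b) ≤ Real.sin (Real.pi * b) := by
    refine le_trans ?_ hsin
    have h3 : Real.exp (-(9 / 4 * b ^ 2)) ≤ 1 - (Real.pi * b) ^ 2 / 6 := by
      have h4 : (Real.pi * b) ^ 2 / 6 ≤ 4 * b ^ 2 * (1 - Real.exp (-(9 / 16))) := by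
        rw [mul_pow]
        have hb6 : 0 ≤ b ^ 2 := by positivity
        nlinarith
      linarith
    calc Real.exp (-(9 / 4 * b ^ 2)) * (Real.pi * b) ≤ (1 - (Real.pi * b) ^ 2 / 6) * (Real.pi * b) := by
          gcongr
      _ = _ := by ring
  have hs : 0 < Real.sin (Real.pi * b) :=
    lt_of_lt_of_le (by positivity) hkey
  rw [h1, div_le_iff₀ hs]
  calc Real.pi * b = Real.exp (9 / 4 * b ^ 2) * (Real.exp (-(9 / 4 * b ^ 2)) * (Real.pi * b)) := by
        rw [← mul_assoc, ← Real.exp_add]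
        simp
    _ ≤ Real.exp (9 / 4 * b ^ 2) * Real.sin (Real.pi * b) := by gcongr

/-- Explicit form of the small ball estimate. -/
theorem explicit (n : ℕ) (hn : 0 < n) (z : ℂ) (hz : ‖z‖ = 1) (δ : ℝ) (hδ : 0 < δ) (hδ1 : δ ≤ 1) :
    gaussianMatrix n {X | ‖zPermanent z X‖ ^ 2 <
      Real.exp (-(max (3 * √(n * Real.log ((n + 1) / δ))) (4 * Real.log ((n + 1) / δ)))) *
        n.factorial} ≤ ENNReal.ofReal δ := by
  have hn1 : (1 : ℝ) ≤ n := by exact_mod_cast hn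
  set M := Real.log (((n : ℝ) + 1) / δ) with hM
  have hq : 1 < ((n : ℝ) + 1) / δ := by
    rw [lt_div_iff₀ hδ]
    linarith
  have hMpos : 0 < M := Real.log_pos hq
  have hexpM : Real.exp M = ((n : ℝ) + 1) / δ := Real.exp_log (by linarith)
  set L := max (3 * √(n * M)) (4 * M) with hL
  -- it suffices to find a good exponent
  have key : ∀ b : ℝ, 0 < b → b ≤ 1 / 2 → M + 9 / 4 * b ^ 2 * n ≤ b * L →
      gaussianMatrix n {X | ‖zPermanent z X‖ ^ 2 < Real.exp (-L) * n.factorial}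
        ≤ ENNReal.ofReal δ := by
    intro b hb hb2 hbL
    refine (small_ball_two z hz b hb (by linarith) (Real.exp (-L)) (Real.exp_pos _)).trans
      (ENNReal.ofReal_le_ofReal ?_)
    have hG1 : 0 < Real.Gamma (1 - b) := Real.Gamma_pos_of_pos (by linarith)
    have hG2 : 0 < Real.Gamma (1 + b) := Real.Gamma_pos_of_pos (by linarith)
    have h1 : ((n : ℝ) + 1) ^ (1 - b) ≤ (n : ℝ) + 1 := by
      calc ((n : ℝ) + 1) ^ (1 - b) ≤ ((n : ℝ) + 1) ^ (1 : ℝ) :=
            Real.rpow_le_rpow_of_exponent_le (by linarith) (by linarith)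
        _ = (n : ℝ) + 1 := Real.rpow_one _
    have h2 : (Real.Gamma (1 + b) * Real.Gamma (1 - b)) ^ n ≤ Real.exp (9 / 4 * b ^ 2 * n) := by
      calc (Real.Gamma (1 + b) * Real.Gamma (1 - b)) ^ n ≤ (Real.exp (9 / 4 * b ^ 2)) ^ n := by
            gcongr
            exact gamma_prod_le b hb hb2
        _ = Real.exp (9 / 4 * b ^ 2 * n) := by
            rw [← Real.exp_nat_mul]
            congr 1
            ring
    have h3 : Real.exp (-L) ^ b = Real.exp (-(b * L)) := by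
      rw [← Real.exp_mul]
      congr 1
      ring
    rw [h3]
    calc ((n : ℝ) + 1) ^ (1 - b) * (Real.Gamma (1 + b) * Real.Gamma (1 - b)) ^ n *
          Real.exp (-(b * L))
        ≤ ((n : ℝ) + 1) * Real.exp (9 / 4 * b ^ 2 * n) * Real.exp (-(b * L)) := by gcongr
      _ = ((n : ℝ) + 1) * Real.exp (9 / 4 * b ^ 2 * n - b * L) := by
          rw [mul_assoc, ← Real.exp_add]
          congr 2
      _ ≤ ((n : ℝ) + 1) * Real.exp (-M) := by
          gcongr
          linarith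
      _ = δ := by
          rw [Real.exp_neg, hexpM]
          field_simp
  rcases le_total M (9 / 16 * n) with hc | hc
  · -- `b = (2/3) √(M/n)`
    set s := √(n * M) with hs
    have hs2 : s ^ 2 = n * M := Real.sq_sqrt (by positivity)
    have hspos : 0 < s := Real.sqrt_pos.2 (by positivity)
    refine key (2 / 3 * (s / n)) (by positivity) ?_ ?_
    · have h5 : s ≤ 3 / 4 * n := by
        have h6 : s ^ 2 ≤ (3 / 4 * n) ^ 2 := by
          rw [hs2]
          nlinarith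
        exact (sq_le_sq₀ hspos.le (by positivity)).1 h6
      have h7 : s / n ≤ 3 / 4 := by
        rw [div_le_iff₀ (by positivity)]
        exact h5
      linarith
    · have h5 : 3 * s ≤ L := le_max_left _ _
      have h6 : 2 / 3 * (s / n) * (3 * s) ≤ 2 / 3 * (s / n) * L := by gcongr
      have h7 : 2 / 3 * (s / n) * (3 * s) = 2 * M := by
        field_simp
        linarith
      have h8 : 9 / 4 * (2 / 3 * (s / n)) ^ 2 * n = M := by
        field_simp
        linarith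
      linarith
  · refine key (1 / 2) (by norm_num) le_rfl ?_
    have h5 : 4 * M ≤ L := le_max_right _ _
    linarith

end Pool.Agent.H.MP_5f83d6_pr
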